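import Mathlib

/-!
Core combinatorial operators for the theorem on good endomorphisms of free algebras.
-/

namespace Pool.Agent.GE

variable {n : ℕ}

/-- `E X g w = ∑_{w = u x_j v} X_u (g j v)`. -/
def E {V : Type*} [AddCommMonoid V] (X : Fin n → V → V) (g : Fin n → List (Fin n) → V) :
    List (Fin n) → V
  | [] => 0
  | i :: w => X i (E X g w) + g i w

section basic

variable {V : Type*} [AddCommMonoid V] (X : Fin n → V → V)

@[simp] lemma E_nil (g : Fin n → List (Fin n) → V) : E X g [] = 0 := rfl

@[simp] lemma E_cons (g : Fin n → List (Fin n) → V) (i : Fin n) (w : List (Fin n)) :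
    E X g (i :: w) = X i (E X g w) + g i w := rfl

/-- `E X g w` only depends on the values of `g` at words shorter than `w`. -/
lemma E_congr {g g' : Fin n → List (Fin n) → V} :
    ∀ {w : List (Fin n)}, (∀ i v, v.length < w.length → g i v = g' i v) → E X g w = E X g' w
  | [], _ => rfl
  | i :: w, h => by
    rw [E_cons, E_cons, E_congr (w := w), h i w (by simp)]
    intro j v hv
    exact h j v (by simp; omega)

/-- naturality -/
lemma map_E {V' : Type*} [AddCommMonoid V'] (X' : Fin n → V' → V') (U : V →+ V')
    (hU : ∀ i v, U (X i v) = X' i (U v)) (g : Fin n → List (Fin n) → V) :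
    ∀ w, U (E X g w) = E X' (fun i v => U (g i v)) w
  | [] => by simp
  | i :: w => by
    rw [E_cons, E_cons, map_add, hU, map_E X' U hU g w]

end basic

section linear

variable {F V : Type*} [Semiring F] [AddCommMonoid V] [Module F V] (X : Fin n → V →ₗ[F] V)

lemma E_add (g g' : Fin n → List (Fin n) → V) :
    ∀ w, E (fun i => (X i : V → V)) (fun i v => g i v + g' i v) w =
      E (fun i => (X i : V → V)) g w + E (fun i => (X i : V → V)) g' w
  | [] => by simp
  | i :: w => by
    rw [E_cons, E_cons, E_cons, E_add g g' w, map_add]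
    abel

lemma E_smul (r : F) (g : Fin n → List (Fin n) → V) :
    ∀ w, E (fun i => (X i : V → V)) (fun i v => r • g i v) w =
      r • E (fun i => (X i : V → V)) g w
  | [] => by simp
  | i :: w => by
    rw [E_cons, E_cons, E_smul r g w, map_smul, smul_add]

lemma E_zero : ∀ w, E (fun i => (X i : V → V)) (fun _ _ => 0) w = 0
  | [] => rfl
  | i :: w => by rw [E_cons, E_zero w, map_zero, add_zero]

end linear

/-- `J c X γ k a = ∑_w c_{k,w} E X (γ(· ++ a)) w`. -/
noncomputable def J {K V : Type*} [Semiring K] [AddCommMonoid V] [Module K V]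
    (c : Fin n → (List (Fin n) →₀ K)) (X : Fin n → V → V) (γ : Fin n → List (Fin n) → V)
    (k : Fin n) (a : List (Fin n)) : V :=
  (c k).sum fun w r => r • E X (fun i v => γ i (v ++ a)) w

section J

variable {K V : Type*} [Semiring K] [AddCommMonoid V] [Module K V]
    (c : Fin n → (List (Fin n) →₀ K)) (X : Fin n → V → V)

/-- `J` at `a` only depends on the values of `γ` at words `v ++ a` with `|v| ≤ D`. -/
lemma J_congr {D : ℕ} (hD : ∀ k, ∀ w ∈ (c k).support, w.length ≤ D + 1)
    {γ γ' : Fin n → List (Fin n) → V} {a : List (Fin n)}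
    (h : ∀ i v, v.length ≤ D → γ i (v ++ a) = γ' i (v ++ a)) (k : Fin n) :
    J c X γ k a = J c X γ' k a := by
  unfold J
  apply Finsupp.sum_congr
  intro w hw
  congr 1
  apply E_congr
  intro i v hv
  apply h
  have := hD k w hw
  omega

lemma map_J {V' : Type*} [AddCommMonoid V'] [Module K V'] (X' : Fin n → V' → V') (U : V →+ V')
    (hU : ∀ i v, U (X i v) = X' i (U v)) (hU' : ∀ (r : K) v, U (r • v) = r • U v)
    (γ : Fin n → List (Fin n) → V) (k : Fin n) (a : List (Fin n)) :
    U (J c X γ k a) = J c X' (fun i v => U (γ i v)) k a := by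
  unfold J
  rw [map_finsuppSum]
  apply Finsupp.sum_congr
  intro w _
  rw [hU', map_E X X' U hU]

/-- right shift -/
lemma J_shift (γ : Fin n → List (Fin n) → V) (j k : Fin n) (a : List (Fin n)) :
    J c X (fun i v => γ i (v ++ [j])) k a = J c X γ k (a ++ [j]) := by
  unfold J
  simp only [List.append_assoc]

end J

section Jlinear

variable {K F V : Type*} [CommSemiring K] [Semiring F] [AddCommMonoid V]
    [Module K V] [Module F V] [SMulCommClass K F V]
    (c : Fin n → (List (Fin n) →₀ K)) (X : Fin n → V →ₗ[F] V)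

lemma J_add (γ γ' : Fin n → List (Fin n) → V) (k : Fin n) (a : List (Fin n)) :
    J c (fun i => (X i : V → V)) (fun i v => γ i v + γ' i v) k a =
      J c (fun i => (X i : V → V)) γ k a + J c (fun i => (X i : V → V)) γ' k a := by
  unfold J
  rw [← Finsupp.sum_add]
  apply Finsupp.sum_congr
  intro w _
  rw [E_add X (fun i v => γ i (v ++ a)) (fun i v => γ' i (v ++ a)), smul_add]

lemma J_smul (r : F) (γ : Fin n → List (Fin n) → V) (k : Fin n) (a : List (Fin n)) :
    J c (fun i => (X i : V → V)) (fun i v => r • γ i v) k a =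
      r • J c (fun i => (X i : V → V)) γ k a := by
  unfold J
  rw [Finsupp.smul_sum]
  apply Finsupp.sum_congr
  intro w _
  rw [E_smul X r (fun i v => γ i (v ++ a)), smul_comm]

lemma J_zero (k : Fin n) (a : List (Fin n)) :
    J c (fun i => (X i : V → V)) (fun _ _ => 0) k a = 0 := by
  unfold J
  simp [E_zero]

end Jlinear

end Pool.Agent.GE
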