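import Mathlib

/-!
Shared definitions for the theorem on good endomorphisms of free associative algebras.
-/

namespace Pool.Agent.GE

universe u v

/-- The span of all monomials (words in the generators) of degree at least `m`,
i.e. the ideal power `I ^ m`, where `I = (x_1, ..., x_n)`. -/
def idealPow (K : Type u) [Field K] (n m : ℕ) : Submodule K (FreeAlgebra K (Fin n)) :=
  Submodule.span K
    {a | ∃ w : List (Fin n), m ≤ w.length ∧ a = (w.map (FreeAlgebra.ι K)).prod}

/-- Good endomorphisms: for every `m ≥ 1` one has `φ = ψ ∘ θ` with `θ` an automorphism and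
`ψ x_i ≡ x_i` modulo `I ^ m`. -/
def IsGood {K : Type u} [Field K] {n : ℕ}
    (φ : FreeAlgebra K (Fin n) →ₐ[K] FreeAlgebra K (Fin n)) : Prop :=
  ∀ m : ℕ, 1 ≤ m → ∃ (ψ : FreeAlgebra K (Fin n) →ₐ[K] FreeAlgebra K (Fin n))
    (θ : FreeAlgebra K (Fin n) ≃ₐ[K] FreeAlgebra K (Fin n)),
    φ = ψ.comp (θ : FreeAlgebra K (Fin n) →ₐ[K] FreeAlgebra K (Fin n)) ∧
    ∀ i : Fin n, ψ (FreeAlgebra.ι K i) - FreeAlgebra.ι K i ∈ idealPow K n m

/-- The other possible reading of the product `ψ θ` (first `ψ`, then `θ`). -/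
def IsGoodOp {K : Type u} [Field K] {n : ℕ}
    (φ : FreeAlgebra K (Fin n) →ₐ[K] FreeAlgebra K (Fin n)) : Prop :=
  ∀ m : ℕ, 1 ≤ m → ∃ (ψ : FreeAlgebra K (Fin n) →ₐ[K] FreeAlgebra K (Fin n))
    (θ : FreeAlgebra K (Fin n) ≃ₐ[K] FreeAlgebra K (Fin n)),
    φ = (θ : FreeAlgebra K (Fin n) →ₐ[K] FreeAlgebra K (Fin n)).comp ψ ∧
    ∀ i : Fin n, ψ (FreeAlgebra.ι K i) - FreeAlgebra.ι K i ∈ idealPow K n m

/-- The tuple `f` of noncommutative polynomials, as a map `S ^ X → S ^ X`, is injective. -/
def InjOn {K : Type u} [Field K] {X : Type} (f : X → FreeAlgebra K X)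
    (S : Type v) [Ring S] [Algebra K S] : Prop :=
  ∀ T T' : X → S, (∀ j, FreeAlgebra.lift K T (f j) = FreeAlgebra.lift K T' (f j)) → T = T'

/-- `f` is injective on all matrix algebras over fields containing `K`. -/
def InjMat {K : Type u} [Field K] {n : ℕ} (f : Fin n → FreeAlgebra K (Fin n)) : Prop :=
  ∀ (L : Type u) [Field L] [Algebra K L] (ι : Type) [Fintype ι] [DecidableEq ι],
    InjOn f (Matrix ι ι L)

/-- Injectivity passes to subalgebras. -/
theorem InjOn.of_injective {K : Type u} [Field K] {X : Type} {f : X → FreeAlgebra K X}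
    {S : Type v} [Ring S] [Algebra K S] {S' : Type*} [Ring S'] [Algebra K S']
    (h : InjOn f S) (g : S' →ₐ[K] S) (hg : Function.Injective g) : InjOn f S' := by
  intro T T' hT
  have key : (fun j => g (T j)) = fun j => g (T' j) := by
    apply h
    intro j
    have e1 : FreeAlgebra.lift K (fun j => g (T j)) = g.comp (FreeAlgebra.lift K T) := by
      ext i; simp
    have e2 : FreeAlgebra.lift K (fun j => g (T' j)) = g.comp (FreeAlgebra.lift K T') := by
      ext i; simp
    rw [e1, e2, AlgHom.comp_apply, AlgHom.comp_apply, hT j]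
  funext j
  exact hg (congrFun key j)

/-- Injectivity on `M_{m × l}(L)` gives injectivity on `M_m(M_l(L))`, hence on `M_m(D)` for
every `K`-algebra `D` embedding in `M_l(L)`. -/
theorem InjMat.matrix_of_injective {K : Type u} [Field K] {n : ℕ}
    {f : Fin n → FreeAlgebra K (Fin n)} (h : InjMat f) {L : Type u} [Field L] [Algebra K L]
    {l : Type} [Fintype l] [DecidableEq l] {D : Type v} [Ring D] [Algebra K D]
    (g : D →ₐ[K] Matrix l l L) (hg : Function.Injective g)
    (m : Type) [Fintype m] [DecidableEq m] : InjOn f (Matrix m m D) := by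
  refine (h L (m × l)).of_injective
    (((Matrix.compAlgEquiv m l L K).toAlgHom).comp (g.mapMatrix)) ?_
  intro a b hab
  have h1 : g.mapMatrix a = g.mapMatrix b :=
    (Matrix.compAlgEquiv m l L K).injective (by simpa using hab)
  ext i j
  apply hg
  have := congrFun (congrFun h1 i) j
  simpa [AlgHom.mapMatrix_apply, Matrix.map_apply] using this

end Pool.Agent.GE
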