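import Mathlib

/-!
The divisibility lemma: a finite-dimensional space with a semilinear endomorphism `U` such that
`U ^ N = τ` has dimension divisible by `N`, if `τ ^ d` is a norm only for `N ∣ d`.
-/

namespace Pool.Agent.GE

open Finset

theorem dvd_finrank_of_semilinear {F : Type*} [Field F] (σ : F →+* F) (τ : F) (N : ℕ)
    (hnorm : ∀ (θ : F) (d : ℕ), (∏ i ∈ range N, σ^[i] θ) = τ ^ d → N ∣ d)
    {W : Type*} [AddCommGroup W] [Module F W] [FiniteDimensional F W] (U : W →+ W)
    (hU : ∀ (r : F) (w : W), U (r • w) = σ r • U w) (hUN : ∀ w, U^[N] w = τ • w) :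
    N ∣ Module.finrank F W := by
  classical
  set d := Module.finrank F W with hd
  let b := Module.finBasis F W
  let Θ : Matrix (Fin d) (Fin d) F := fun i j => b.repr (U (b j)) i
  let P : ℕ → Matrix (Fin d) (Fin d) F := fun m => Nat.rec 1 (fun _ Q => Θ * Q.map σ) m
  have hP0 : P 0 = 1 := rfl
  have hPs : ∀ m, P (m + 1) = Θ * (P m).map σ := fun m => rfl
  have hUb : ∀ j, U (b j) = ∑ i, Θ i j • b i := fun j => (b.sum_repr (U (b j))).symm
  have key : ∀ m j, U^[m] (b j) = ∑ i, P m i j • b i := by
    intro m
    induction m with
    | zero =>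
      intro j
      rw [hP0, Function.iterate_zero, id]
      simp [Matrix.one_apply]
    | succ m ih =>
      intro j
      rw [Function.iterate_succ_apply', ih j, map_sum, hPs]
      simp only [hU, hUb, Finset.smul_sum, smul_smul, Matrix.mul_apply, Matrix.map_apply,
        Finset.sum_smul]
      rw [Finset.sum_comm]
      apply Finset.sum_congr rfl
      intro i _
      apply Finset.sum_congr rfl
      intro l _
      rw [mul_comm]
  have hdet : ∀ m, (P m).det = ∏ i ∈ range m, σ^[i] Θ.det := by
    intro m
    induction m with
    | zero => simp [hP0]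
    | succ m ih =>
      rw [hPs, Matrix.det_mul, ← RingHom.mapMatrix_apply, ← RingHom.map_det, ih, map_prod,
        Finset.prod_range_succ', mul_comm]
      congr 1
      apply Finset.prod_congr rfl
      intro i _
      rw [Function.iterate_succ_apply']
  have hPN : P N = Matrix.scalar (Fin d) τ := by
    ext i j
    have h1 := key N j
    rw [hUN] at h1
    have h2 := congrArg (fun w => b.repr w i) h1
    simp only [map_smul, Module.Basis.repr_self, map_sum, Finsupp.coe_smul, Pi.smul_apply,
      Finsupp.coe_finsetSum, Finset.sum_apply, smul_eq_mul] at h2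
    simp only [Finsupp.single_apply, mul_ite, mul_one, mul_zero, Finset.sum_ite_eq',
      Finset.mem_univ, if_true] at h2
    rw [← h2, Matrix.scalar_apply, Matrix.diagonal_apply]
    by_cases hij : i = j
    · subst hij; simp
    · rw [if_neg hij, if_neg (fun h => hij h.symm)]
  apply hnorm Θ.det d
  rw [← hdet N, hPN, Matrix.scalar_apply, Matrix.det_diagonal, Finset.prod_const,
    Finset.card_univ, Fintype.card_fin]

end Pool.Agent.GE
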