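import Pool.Agent.GE.Core
import Pool.Agent.GE.Defs

/-!
Step (5): the uniform claim together with surjectivity on matrices gives `x_i ∈ range`.
-/

namespace Pool.Agent.GE

universe u

variable {n : ℕ}

/-- the word `x_{w_1} ... x_{w_r}` as an element of the free algebra -/
def wd (K : Type u) [Field K] {n : ℕ} (w : List (Fin n)) : FreeAlgebra K (Fin n) :=
  (w.map (FreeAlgebra.ι K)).prod

section
variable {K : Type u} [Field K]

@[simp] lemma wd_nil : wd K ([] : List (Fin n)) = 1 := rfl

@[simp] lemma wd_cons (i : Fin n) (w : List (Fin n)) :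
    wd K (i :: w) = FreeAlgebra.ι K i * wd K w := by simp [wd]

lemma wd_append (v w : List (Fin n)) : wd K (v ++ w) = wd K v * wd K w := by simp [wd]

lemma lift_wd {S : Type*} [Ring S] [Algebra K S] (X : Fin n → S) (w : List (Fin n)) :
    FreeAlgebra.lift K X (wd K w) = (w.map X).prod := by
  unfold wd
  rw [map_list_prod, List.map_map]
  congr 1
  apply List.map_congr_left
  intro i _
  simp

/-- every element of the free algebra is a linear combination of words -/
lemma exists_coeff (a : FreeAlgebra K (Fin n)) :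
    ∃ c : List (Fin n) →₀ K, a = c.sum fun w r => r • wd K w := by
  have h : a ∈ Submodule.span K (Set.range (wd K (n := n))) := by
    induction a using FreeAlgebra.induction with
    | grade0 r =>
      rw [Algebra.algebraMap_eq_smul_one]
      exact Submodule.smul_mem _ _ (Submodule.subset_span ⟨[], rfl⟩)
    | grade1 i => exact Submodule.subset_span ⟨[i], by simp⟩
    | mul a b ha hb =>
      have hab := Submodule.mul_mem_mul ha hb
      rw [Submodule.span_mul_span] at hab
      refine Submodule.span_mono ?_ hab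
      rintro _ ⟨_, ⟨v, rfl⟩, _, ⟨w, rfl⟩, rfl⟩
      exact ⟨v ++ w, wd_append v w⟩
    | add a b ha hb => exact Submodule.add_mem _ ha hb
  rw [Finsupp.mem_span_range_iff_exists_finsupp] at h
  obtain ⟨c, hc⟩ := h
  exact ⟨c, hc.symm⟩

end

/-- The uniform claim at level `b` over the field `k`. -/
def UClaim {K : Type u} [Field K] (k : Type u) [Field k] [Algebra K k]
    (c : Fin n → (List (Fin n) →₀ K)) (b : ℕ) : Prop :=
  ∀ (N : ℕ) (X : Fin n → Matrix (Fin N) (Fin N) k) (γ : Fin n → List (Fin n) → (Fin N → k)),
    (∀ j a, a.length ≤ b →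
      J c (fun i => ((X i).mulVecLin : (Fin N → k) → (Fin N → k))) γ j a = 0) →
    ∀ i, γ i [] = 0

section

variable {K : Type u} [Field K] {k : Type u} [Field k] [Algebra K k]

theorem mem_range_of_UClaim (f : Fin n → FreeAlgebra K (Fin n))
    (c : Fin n → (List (Fin n) →₀ K)) (hc : ∀ j, f j = (c j).sum fun w r => r • wd K w)
    {b : ℕ} (hU : UClaim k c b)
    (hS : ∀ (N : ℕ) (G : Fin n → Matrix (Fin N) (Fin N) k),
      ∃ X : Fin n → Matrix (Fin N) (Fin N) k, ∀ j, FreeAlgebra.lift K X (f j) = G j) (i : Fin n) :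
    FreeAlgebra.ι K i ∈ (FreeAlgebra.lift K f).range := by
  classical
  set A0 : Submodule K (FreeAlgebra K (Fin n)) :=
    Subalgebra.toSubmodule (FreeAlgebra.lift K f).range with hA0
  -- short words
  let S : Set (FreeAlgebra K (Fin n)) := (fun w => wd K w) '' {w : List (Fin n) | w.length ≤ max b 1}
  have hSfin : S.Finite := (List.finite_length_le (Fin n) (max b 1)).image _
  let Q := FreeAlgebra K (Fin n) ⧸ A0
  let V : Submodule K Q := (Submodule.span K S).map A0.mkQ
  have : FiniteDimensional K (Submodule.span K S) := FiniteDimensional.span_of_finite K hSfin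
  have : FiniteDimensional K V := by
    dsimp only [V]
    infer_instance
  -- projection
  obtain ⟨p, hp⟩ := V.subtype.exists_leftInverse_of_injective (Submodule.ker_subtype V)
  have hp' : ∀ v : V, p v.1 = v := fun v => congrArg (fun g => g v) hp
  -- multiplication by `f j` on the quotient
  have hmul : ∀ j, A0 ≤ A0.comap (LinearMap.mulLeft K (f j)) := by
    intro j a ha
    rw [Submodule.mem_comap, LinearMap.mulLeft_apply]
    have hfj : f j ∈ (FreeAlgebra.lift K f).range := ⟨FreeAlgebra.ι K j, by simp⟩
    exact (FreeAlgebra.lift K f).range.mul_mem hfj ha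
  let m : Fin n → (Q →ₗ[K] Q) := fun j => A0.mapQ A0 (LinearMap.mulLeft K (f j)) (hmul j)
  let Y : Fin n → (V →ₗ[K] V) := fun j => p.comp ((m j).comp V.subtype)
  let θ : FreeAlgebra K (Fin n) →ₗ[K] V := p.comp A0.mkQ
  have hθ : ∀ a ∈ Submodule.span K S, (θ a : Q) = A0.mkQ a := by
    intro a ha
    have h1 : A0.mkQ a ∈ V := Submodule.mem_map_of_mem ha
    have h2 := hp' ⟨A0.mkQ a, h1⟩
    exact congrArg Subtype.val h2
  have hYθ : ∀ j, ∀ a ∈ Submodule.span K S, Y j (θ a) = θ (f j * a) := by
    intro j a ha
    change p (m j (θ a : Q)) = _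
    rw [hθ a ha]
    rfl
  -- coordinates
  let N := Module.finrank K V
  let e : V ≃ₗ[K] (Fin N → K) := (Module.finBasis K V).equivFun
  let ext : (Fin N → K) →ₗ[K] (Fin N → k) :=
    LinearMap.pi fun l => (Algebra.linearMap K k).comp (LinearMap.proj l)
  have hext : ∀ v l, ext v l = algebraMap K k (v l) := fun v l => rfl
  let θ' : FreeAlgebra K (Fin n) →ₗ[K] (Fin N → k) := (ext.comp e.toLinearMap).comp θ
  let G : Fin n → Matrix (Fin N) (Fin N) k := fun j =>
    (LinearMap.toMatrix' ((e.toLinearMap.comp (Y j)).comp e.symm.toLinearMap)).map (algebraMap K k)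
  obtain ⟨X, hX⟩ := hS N G
  have hG : ∀ j, ∀ a ∈ Submodule.span K S, (G j).mulVec (θ' a) = θ' (f j * a) := by
    intro j a ha
    have h1 : (G j).mulVec (ext (e (θ a))) =
        ext ((LinearMap.toMatrix' ((e.toLinearMap.comp (Y j)).comp e.symm.toLinearMap)).mulVec
          (e (θ a))) := by
      funext l
      rw [hext, Matrix.mulVec, Matrix.mulVec, dotProduct, dotProduct, map_sum]
      apply Finset.sum_congr rfl
      intro x _
      rw [map_mul, hext]
      rfl
    change (G j).mulVec (ext (e (θ a))) = ext (e (θ (f j * a)))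
    rw [h1, ← Matrix.toLin'_apply, Matrix.toLin'_toMatrix']
    simp only [LinearMap.comp_apply, LinearEquiv.coe_coe, LinearEquiv.symm_apply_apply]
    rw [hYθ j a ha]
  -- the defect
  let γ : Fin n → List (Fin n) → (Fin N → k) := fun j a =>
    (X j).mulVec (θ' (wd K a)) - θ' (FreeAlgebra.ι K j * wd K a)
  have hE : ∀ (a w : List (Fin n)),
      E (fun i => ((X i).mulVecLin : (Fin N → k) → (Fin N → k))) (fun i v => γ i (v ++ a)) w =
        ((w.map X).prod).mulVec (θ' (wd K a)) - θ' (wd K w * wd K a) := by
    intro a w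
    induction w with
    | nil => simp
    | cons i w ih =>
      rw [E_cons, ih, map_sub, Matrix.mulVecLin_apply, Matrix.mulVecLin_apply]
      simp only [γ, List.map_cons, List.prod_cons, wd_cons, wd_append]
      rw [Matrix.mulVec_mulVec, mul_assoc]
      abel
  have hJ : ∀ j a, a.length ≤ b →
      J c (fun i => ((X i).mulVecLin : (Fin N → k) → (Fin N → k))) γ j a = 0 := by
    intro j a ha
    have haS : wd K a ∈ Submodule.span K S :=
      Submodule.subset_span ⟨a, ha.trans (le_max_left _ _), rfl⟩
    have h1 : J c (fun i => ((X i).mulVecLin : (Fin N → k) → (Fin N → k))) γ j a =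
        (FreeAlgebra.lift K X (f j)).mulVec (θ' (wd K a)) - θ' (f j * wd K a) := by
      unfold J
      simp only [hE]
      rw [hc j, Finsupp.sum_mul, map_finsuppSum, map_finsuppSum]
      simp only [map_smul, lift_wd, smul_mul_assoc, Finsupp.sum, smul_sub]
      rw [Finset.sum_sub_distrib, Matrix.sum_mulVec]
      congr 1
      apply Finset.sum_congr rfl
      intro w _
      rw [Matrix.smul_mulVec]
    rw [h1, hX j, hG j _ haS, sub_self]
  have hγ := hU N X γ hJ i
  have h1 : θ' 1 = 0 := by
    have : θ 1 = 0 := by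
      change p (A0.mkQ 1) = 0
      have h0 : A0.mkQ 1 = 0 := by
        rw [Submodule.mkQ_apply, Submodule.Quotient.mk_eq_zero]
        exact (FreeAlgebra.lift K f).range.one_mem
      rw [h0, map_zero]
    change ext (e (θ 1)) = 0
    rw [this, map_zero, map_zero]
  have h2 : θ' (FreeAlgebra.ι K i) = 0 := by
    simpa [γ, h1] using hγ
  have hext_inj : Function.Injective ext := by
    intro v v' h
    funext l
    have := congrFun h l
    rw [hext, hext] at this
    exact (algebraMap K k).injective this
  have h3 : θ (FreeAlgebra.ι K i) = 0 := by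
    apply e.injective
    apply hext_inj
    rw [map_zero, map_zero]
    exact h2
  have hxS : FreeAlgebra.ι K i ∈ Submodule.span K S :=
    Submodule.subset_span ⟨[i], by simp, by simp⟩
  have h4 : A0.mkQ (FreeAlgebra.ι K i) = 0 := by
    rw [← hθ _ hxS, h3]; rfl
  rw [Submodule.mkQ_apply, Submodule.Quotient.mk_eq_zero] at h4
  exact h4

end

end Pool.Agent.GE
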