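import Pool.Agent.GE.Uclaim

/-!
The uniform claim and the surjectivity criterion.
-/

namespace Pool.Agent.GE

open MvPolynomial

universe u

variable {n : ℕ}

section

variable {K k : Type u} [Field K] [Field k] [Algebra K k]

/-- standard basis of `(C ^ N) ^ n` -/
noncomputable def stdB (C : Type u) [CommRing C] (n N : ℕ) :
    Module.Basis (Σ _ : Fin n, Fin N) C (Fin n → Fin N → C) :=
  Pi.basis (fun _ : Fin n => Pi.basisFun C (Fin N))

lemma stdB_apply (C : Type u) [CommRing C] (n N : ℕ) (p : Σ _ : Fin n, Fin N) :
    stdB C n N p = Pi.single p.1 (Pi.single p.2 1) := by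
  unfold stdB
  rw [Pi.basis_apply, Pi.basisFun_apply]

lemma stdB_repr (C : Type u) [CommRing C] (n N : ℕ) (v : Fin n → Fin N → C)
    (p : Σ _ : Fin n, Fin N) : (stdB C n N).repr v p = v p.1 p.2 := by
  unfold stdB
  rw [Pi.basis_repr, Pi.basisFun_repr]

lemma toMatrix_J0 {C : Type u} [CommRing C] [Algebra K C] {N : ℕ}
    (c : Fin n → (List (Fin n) →₀ K)) (X : Fin n → Matrix (Fin N) (Fin N) C) (sp : C →ₐ[K] k) :
    (LinearMap.toMatrix (stdB C n N) (stdB C n N)
      (J0lin c (fun i => (X i).mulVecLin))).map sp =
    LinearMap.toMatrix (stdB k n N) (stdB k n N)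
      (J0lin c (fun i => ((X i).map sp).mulVecLin)) := by
  ext p q
  rw [Matrix.map_apply, LinearMap.toMatrix_apply, LinearMap.toMatrix_apply, stdB_repr, stdB_repr,
    stdB_apply, stdB_apply]
  have h := map_J0 c (fun i => ((X i).mulVecLin : (Fin N → C) → (Fin N → C)))
    (fun i => (((X i).map sp).mulVecLin : (Fin N → k) → (Fin N → k))) (mapVec sp)
    (fun i v => mapVec_mulVec sp (X i) v) (mapVec_smul sp)
    (Pi.single q.1 (Pi.single q.2 1)) p.1
  have h1 : (fun i => mapVec sp ((Pi.single q.1 (Pi.single q.2 1) : Fin n → Fin N → C) i)) =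
      (Pi.single q.1 (Pi.single q.2 1) : Fin n → Fin N → k) := by
    funext i l
    by_cases hi : i = q.1
    · subst hi
      simp only [Pi.single_eq_same, mapVec, AddMonoidHom.coe_mk, ZeroHom.coe_mk]
      by_cases hl : l = q.2
      · subst hl; simp
      · simp [hl]
    · simp [hi, mapVec]
  rw [h1] at h
  exact congrFun h p.2

theorem uclaim [IsAlgClosed k] {f : Fin n → FreeAlgebra K (Fin n)} (h : InjMat f)
    (c : Fin n → (List (Fin n) →₀ K)) (hc : ∀ j, f j = (c j).sum fun w r => r • wd K w)
    {D : ℕ} (hD : ∀ k, ∀ w ∈ (c k).support, w.length ≤ D + 1) :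
    UClaim k c (lev n D) := by
  intro N X γ hγ i
  cases N with
  | zero => funext l; exact l.elim0
  | succ N =>
    -- specialisation
    let x : Idx n N → k := fun a => match a with
      | none => 1
      | some (j, l, m) => X j l m
    let sp : CR k n N →ₐ[K] k := (MvPolynomial.aeval x).restrictScalars K
    have hsp : Function.Surjective sp := by
      intro r
      refine ⟨MvPolynomial.C r, ?_⟩
      change MvPolynomial.aeval x (MvPolynomial.C r) = r
      simp
    have hX : ∀ j, (XG k n N j).map sp = X j := by
      intro j
      ext l m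
      rw [Matrix.map_apply]
      change MvPolynomial.aeval x ((if l < m then MvPolynomial.X none else 1) *
        MvPolynomial.X (some (j, l, m))) = X j l m
      rw [map_mul, MvPolynomial.aeval_X]
      split_ifs <;> simp [x]
    have hinj : ∀ (Y : Fin n → Matrix (Fin (N + 1)) (Fin (N + 1)) k)
        (g : Fin n → Fin (N + 1) → k),
        (∀ j, J0 c (fun i => ((Y i).mulVecLin : (Fin (N + 1) → k) → _)) g j = 0) →
          ∀ i, g i = 0 := by
      intro Y g hg
      exact h.J0_injective c hc (fun i => (Y i).mulVecLin) g hg
    have hsurj : ∀ r : Fin n → Fin (N + 1) → CR k n N, ∃ g : Fin n → Fin (N + 1) → CR k n N,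
        ∀ j, J0 c (fun i => ((XG k n N i).mulVecLin : (Fin (N + 1) → CR k n N) → _)) g j =
          r j := by
      have hdet : IsUnit (LinearMap.toMatrix (stdB (CR k n N) n (N + 1))
          (stdB (CR k n N) n (N + 1)) (J0lin c (fun i => (XG k n N i).mulVecLin))).det := by
        apply isUnit_of_no_zero
        intro y hy
        let sy : CR k n N →ₐ[K] k := (MvPolynomial.aeval y).restrictScalars K
        have h1 : (LinearMap.toMatrix (stdB k n (N + 1)) (stdB k n (N + 1))
            (J0lin c (fun i => ((XG k n N i).map sy).mulVecLin))).det = 0 := by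
          rw [← toMatrix_J0 c (XG k n N) sy]
          have h2 := (AlgHom.map_det sy (LinearMap.toMatrix (stdB (CR k n N) n (N + 1))
            (stdB (CR k n N) n (N + 1)) (J0lin c (fun i => (XG k n N i).mulVecLin)))).symm
          rw [AlgHom.mapMatrix_apply] at h2
          rw [h2]
          exact hy
        have h3 : Function.Injective (J0lin c (fun i => ((XG k n N i).map sy).mulVecLin)) := by
          rw [injective_iff_map_eq_zero]
          intro g hg
          funext i
          exact hinj (fun i => (XG k n N i).map sy) g (fun j => congrFun hg j) i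
        have h4 := LinearMap.isUnit_iff_ker_eq_bot (J0lin c
          (fun i => ((XG k n N i).map sy).mulVecLin)) |>.mpr (LinearMap.ker_eq_bot.mpr h3)
        have h5 := (LinearMap.isUnit_toMatrix_iff (stdB k n (N + 1))).mpr h4
        rw [Matrix.isUnit_iff_isUnit_det, h1] at h5
        exact not_isUnit_zero h5
      intro r
      let e := LinearEquiv.ofIsUnitDet hdet
      refine ⟨e.symm r, fun j => ?_⟩
      have h6 : e (e.symm r) = r := e.apply_symm_apply r
      exact congrFun h6 j
    refine transfer c sp hsp (XG k n N) hsurj ?_ (generic_vanish h c hc hD N) γ ?_ i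
    · intro g hg
      exact hinj (fun i => (XG k n N i).map sp) g hg
    · intro j a ha
      have h7 := hγ j a ha
      simp only [hX]
      exact h7

/-- If `f` is injective on all matrix algebras over fields and surjective on matrices over an
algebraically closed field, then the subalgebra generated by the `f j` is everything. -/
theorem range_eq_top [IsAlgClosed k] {f : Fin n → FreeAlgebra K (Fin n)} (h : InjMat f)
    (hS : ∀ (N : ℕ) (G : Fin n → Matrix (Fin N) (Fin N) k),
      ∃ X : Fin n → Matrix (Fin N) (Fin N) k, ∀ j, FreeAlgebra.lift K X (f j) = G j) :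
    (FreeAlgebra.lift K f).range = ⊤ := by
  classical
  choose c hc using fun j => exists_coeff (f j)
  obtain ⟨D, hD⟩ : ∃ D : ℕ, ∀ k, ∀ w ∈ (c k).support, w.length ≤ D + 1 := by
    refine ⟨Finset.univ.sup fun k => (c k).support.sup List.length, fun k w hw => ?_⟩
    have h1 : w.length ≤ (c k).support.sup List.length := Finset.le_sup (f := List.length) hw
    have h2 : (c k).support.sup List.length ≤
        Finset.univ.sup fun k => (c k).support.sup List.length :=
      Finset.le_sup (f := fun k => (c k).support.sup List.length) (Finset.mem_univ k)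
    omega
  have hU := uclaim (k := k) h c hc hD
  have h1 := mem_range_of_UClaim f c hc hU hS
  rw [eq_top_iff]
  rintro a -
  induction a using FreeAlgebra.induction with
  | grade0 r => exact Subalgebra.algebraMap_mem _ r
  | grade1 i => exact h1 i
  | mul a b ha hb => exact Subalgebra.mul_mem _ ha hb
  | add a b ha hb => exact Subalgebra.add_mem _ ha hb

end

end Pool.Agent.GE
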