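import Mathlib
import Pool.Agent.GE.Defs

/-!
Surjectivity on matrix points over an algebraically closed field (Ax-Grothendieck).
-/

namespace Pool.Agent.GE

universe u

theorem surj_of_injOn {K : Type u} [Field K] {n : ℕ} {f : Fin n → FreeAlgebra K (Fin n)}
    (L : Type u) [Field L] [IsAlgClosed L] [Algebra K L] (ι : Type) [Fintype ι] [DecidableEq ι]
    (h : InjOn f (Matrix ι ι L)) (G : Fin n → Matrix ι ι L) :
    ∃ X : Fin n → Matrix ι ι L, ∀ j, FreeAlgebra.lift K X (f j) = G j := by
  classical
  let σ := Fin n × ι × ι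
  let P := MvPolynomial σ L
  let Xg : Fin n → Matrix ι ι P := fun j => Matrix.of fun a b => MvPolynomial.X (j, a, b)
  let mk : (σ → L) → Fin n → Matrix ι ι L := fun v j => Matrix.of fun a b => v (j, a, b)
  let p : σ → P := fun s => (FreeAlgebra.lift K Xg (f s.1)) s.2.1 s.2.2
  have key : ∀ (v : σ → L) (s : σ),
      MvPolynomial.eval v (p s) = (FreeAlgebra.lift K (mk v) (f s.1)) s.2.1 s.2.2 := by
    intro v s
    let ev : P →ₐ[K] L := (MvPolynomial.aeval v : P →ₐ[L] L).restrictScalars K
    have e1 : FreeAlgebra.lift K (mk v) = (ev.mapMatrix).comp (FreeAlgebra.lift K Xg) := by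
      ext i a b
      simp only [mk, Xg, ev, Function.comp_apply, FreeAlgebra.lift_ι_apply, Matrix.of_apply,
        AlgHom.comp_apply, AlgHom.mapMatrix_apply, Matrix.map_apply, AlgHom.restrictScalars_apply]
      exact (MvPolynomial.aeval_X v _).symm
    rw [e1]
    simp only [AlgHom.comp_apply, AlgHom.mapMatrix_apply, Matrix.map_apply, p]
    exact (MvPolynomial.coe_aeval_eq_eval v ▸ rfl)
  have hinj : Function.Injective (fun (v : σ → L) (s : σ) => MvPolynomial.eval v (p s)) := by
    intro v w hvw
    have : mk v = mk w := by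
      apply h
      intro j
      ext a b
      have := congrFun hvw (j, a, b)
      simp only [key] at this
      exact this
    funext s
    obtain ⟨j, a, b⟩ := s
    have := congrFun (congrFun (congrFun this j) a) b
    simpa [mk] using this
  obtain ⟨v, hv⟩ := ax_grothendieck_univ p hinj (fun s => G s.1 s.2.1 s.2.2)
  refine ⟨mk v, fun j => ?_⟩
  ext a b
  have := congrFun hv (j, a, b)
  simp only [key] at this
  exact this

theorem surj_of_injMat {K : Type u} [Field K] {n : ℕ} {f : Fin n → FreeAlgebra K (Fin n)}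
    (h : InjMat f)
    (L : Type u) [Field L] [IsAlgClosed L] [Algebra K L] (ι : Type) [Fintype ι] [DecidableEq ι]
    (G : Fin n → Matrix ι ι L) :
    ∃ X : Fin n → Matrix ι ι L, ∀ j, FreeAlgebra.lift K X (f j) = G j :=
  surj_of_injOn L ι (h L ι) G

end Pool.Agent.GE
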