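import Pool.Agent.GE.Inj
import Pool.Agent.GE.Surj
import Pool.Agent.GE.Main

/-!
Good endomorphisms are bijective: final assembly.
-/

namespace Pool.Agent.GE

universe u

variable {K : Type u} [Field K] {n : ℕ}

/-- the free algebra is residually finite-dimensional: truncated left regular representation -/
theorem exists_lift_ne_zero (L : Type u) [Field L] [Algebra K L]
    (a : FreeAlgebra K (Fin n)) (ha : a ≠ 0) :
    ∃ (ι : Type) (_ : Fintype ι) (_ : DecidableEq ι) (Z : Fin n → Matrix ι ι L),
      FreeAlgebra.lift K Z a ≠ 0 := by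
  classical
  obtain ⟨c, hc⟩ := exists_coeff a
  have hc0 : c ≠ 0 := by
    rintro rfl
    exact ha (by rw [hc]; simp)
  obtain ⟨w0, hw0⟩ := Finsupp.support_nonempty_iff.mpr hc0
  let B := c.support.sup List.length
  have hB : ∀ w ∈ c.support, w.length ≤ B := fun w hw => Finset.le_sup (f := List.length) hw
  let ι := Short n B
  have _ : Fintype ι := Fintype.ofFinite ι
  let Z : Fin n → Matrix ι ι L := fun i => Matrix.of fun u v => if u.1 = i :: v.1 then 1 else 0
  let e0 : ι := ⟨[], by simp⟩
  have hZ : ∀ (w : List (Fin n)) (u : ι), w.length ≤ B →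
      ((w.map Z).prod) u e0 = if u.1 = w then 1 else 0 := by
    intro w
    induction w with
    | nil =>
      intro u _
      rw [List.map_nil, List.prod_nil, Matrix.one_apply]
      by_cases hu : u = e0
      · subst hu; simp [e0]
      · rw [if_neg hu, if_neg]
        intro h1
        exact hu (Subtype.ext h1)
    | cons i w ih =>
      intro u hw
      have hw' : w.length ≤ B := by simp at hw; omega
      rw [List.map_cons, List.prod_cons, Matrix.mul_apply]
      simp only [fun u => ih u hw']
      rw [Finset.sum_eq_single (⟨w, hw'⟩ : ι)]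
      · simp [Z]
      · intro v _ hv
        rw [if_neg, mul_zero]
        intro h1
        exact hv (Subtype.ext h1)
      · intro h1
        exact absurd (Finset.mem_univ _) h1
  refine ⟨ι, inferInstance, inferInstance, Z, ?_⟩
  intro h0
  have h1 := congrFun (congrFun h0 ⟨w0, hB w0 hw0⟩) e0
  rw [hc, map_finsuppSum] at h1
  simp only [map_smul, lift_wd, Finsupp.sum, Matrix.sum_apply, Matrix.smul_apply,
    Matrix.zero_apply] at h1
  rw [Finset.sum_eq_single w0] at h1
  · rw [hZ w0 _ (hB w0 hw0), if_pos rfl, ← Algebra.algebraMap_eq_smul_one,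
      map_eq_zero] at h1
    exact (Finsupp.mem_support_iff.mp hw0) h1
  · intro w hw hne
    rw [hZ w _ (hB w hw), if_neg (fun h => hne h.symm), smul_zero]
  · intro h2
    exact absurd hw0 h2

theorem bijective_of_injMat (φ : FreeAlgebra K (Fin n) →ₐ[K] FreeAlgebra K (Fin n))
    (h : InjMat (fun j => φ (FreeAlgebra.ι K j))) : Function.Bijective φ := by
  have hφ := algHom_eq_lift φ
  constructor
  · rw [injective_iff_map_eq_zero]
    intro a ha
    by_contra hne
    obtain ⟨ι, _, _, Z, hZ⟩ := exists_lift_ne_zero (AlgebraicClosure K) a hne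
    obtain ⟨X, hX⟩ := surj_of_injMat h (AlgebraicClosure K) ι Z
    apply hZ
    have h1 := lift_comp_apply (fun j => φ (FreeAlgebra.ι K j)) X a
    rw [← hφ, ha, map_zero] at h1
    rw [h1]
    congr 2
    funext j
    exact (hX j).symm
  · have h1 := range_eq_top (k := AlgebraicClosure K) h
      (fun N G => surj_of_injMat h (AlgebraicClosure K) (Fin N) G)
    rw [← hφ] at h1
    exact (AlgHom.range_eq_top φ).mp h1

theorem bijective_of_good (φ : FreeAlgebra K (Fin n) →ₐ[K] FreeAlgebra K (Fin n))
    (h : IsGood φ ∨ IsGoodOp φ) : Function.Bijective φ :=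
  bijective_of_injMat φ (injMat_of_good φ h)

end Pool.Agent.GE
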