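import Mathlib

/-!
Generic matrices with a cyclic semilinear symmetry.
-/

namespace Pool.Agent.GE

open MvPolynomial Finset
open scoped Fin.CommRing

universe u

section generic

variable (k : Type u) [Field k] (n N : ℕ)

/-- index set of the variables: `none` is `τ`, `some (j,l,m)` is the entry `a_{j,l,m}` -/
abbrev Idx (n N : ℕ) := Option (Fin n × Fin (N + 1) × Fin (N + 1))

/-- the cyclic permutation of the variables -/
def perm : Equiv.Perm (Idx n N) :=
  Equiv.optionCongr ((Equiv.refl (Fin n)).prodCongr
    ((Equiv.addRight (1 : Fin (N + 1))).prodCongr (Equiv.addRight (1 : Fin (N + 1)))))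

@[simp] lemma perm_none : perm n N none = none := rfl

@[simp] lemma perm_some (j : Fin n) (l m : Fin (N + 1)) :
    perm n N (some (j, l, m)) = some (j, l + 1, m + 1) := rfl

/-- the coefficient ring -/
abbrev CR := MvPolynomial (Idx n N) k

/-- its fraction field -/
abbrev FR := FractionRing (CR k n N)

/-- the automorphism `σ` of the coefficient ring -/
noncomputable def sigC : CR k n N ≃ₐ[k] CR k n N := renameEquiv k (perm n N)

/-- the automorphism `σ` of the fraction field -/
noncomputable def sigF : FR k n N →+* FR k n N :=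
  (IsFractionRing.ringEquivOfRingEquiv (K := FR k n N) (L := FR k n N)
    (sigC k n N).toRingEquiv : FR k n N ≃+* FR k n N)

lemma sigF_algebraMap (x : CR k n N) :
    sigF k n N (algebraMap _ _ x) = algebraMap _ _ (sigC k n N x) := by
  unfold sigF
  exact IsFractionRing.ringEquivOfRingEquiv_algebraMap (K := FR k n N) (L := FR k n N)
    (sigC k n N).toRingEquiv x

lemma sigF_iter_algebraMap (i : ℕ) (x : CR k n N) :
    (sigF k n N)^[i] (algebraMap _ _ x) = algebraMap _ _ ((sigC k n N)^[i] x) := by
  induction i with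
  | zero => rfl
  | succ i ih => rw [Function.iterate_succ_apply', ih, sigF_algebraMap,
      Function.iterate_succ_apply']

lemma sigC_X (a : Idx n N) : sigC k n N (X a) = X (perm n N a) := by
  simp [sigC]

lemma sigC_C (r : k) : sigC k n N (C r) = C r := by
  simp [sigC]

lemma sigC_iter (i : ℕ) (x : CR k n N) :
    (sigC k n N)^[i] x = rename ((perm n N)^[i]) x := by
  induction i with
  | zero => simp
  | succ i ih =>
    rw [Function.iterate_succ_apply', ih]
    simp only [sigC, renameEquiv_apply, rename_rename]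
    rw [← Function.iterate_succ']

lemma perm_iter (i : ℕ) (j : Fin n) (l m : Fin (N + 1)) :
    (perm n N)^[i] (some (j, l, m)) = some (j, l + (i : Fin (N + 1)), m + (i : Fin (N + 1))) := by
  induction i with
  | zero => simp
  | succ i ih => rw [Function.iterate_succ_apply', ih, perm_some]; simp [add_assoc]

lemma perm_iter_N : (perm n N)^[N + 1] = id := by
  funext a
  cases a with
  | none =>
    have : ∀ i, (perm n N)^[i] none = none := by
      intro i
      induction i with
      | zero => rfl
      | succ i ih => rw [Function.iterate_succ_apply', ih, perm_none]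
    rw [this]; rfl
  | some a =>
    obtain ⟨j, l, m⟩ := a
    rw [perm_iter]
    simp

lemma sigC_iter_N (x : CR k n N) : (sigC k n N)^[N + 1] x = x := by
  rw [sigC_iter, perm_iter_N]
  simp

lemma sigF_iter_N (x : FR k n N) : (sigF k n N)^[N + 1] x = x := by
  obtain ⟨p, q, hq, rfl⟩ := IsFractionRing.div_surjective (A := CR k n N) x
  rw [← RingHom.coe_pow, map_div₀, RingHom.coe_pow, sigF_iter_algebraMap, sigF_iter_algebraMap,
    sigC_iter_N, sigC_iter_N]

lemma totalDegree_sigC_iter (i : ℕ) (x : CR k n N) :
    ((sigC k n N)^[i] x).totalDegree = x.totalDegree := by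
  induction i with
  | zero => rfl
  | succ i ih =>
    rw [Function.iterate_succ_apply', ← ih]
    exact totalDegree_renameEquiv (perm n N) _

lemma totalDegree_prod_range {ι : Type*} (m : ℕ) (f : ℕ → MvPolynomial ι k)
    (hf : ∀ i, f i ≠ 0) :
    (∏ i ∈ range m, f i).totalDegree = ∑ i ∈ range m, (f i).totalDegree := by
  induction m with
  | zero => simp
  | succ m ih =>
    rw [prod_range_succ, sum_range_succ, totalDegree_mul_of_isDomain
      (prod_ne_zero_iff.mpr fun i _ => hf i) (hf m), ih]

lemma totalDegree_X_pow' {ι : Type*} (a : ι) (d : ℕ) :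
    ((X a : MvPolynomial ι k) ^ d).totalDegree = d := by
  induction d with
  | zero => simp
  | succ d ih =>
    rw [pow_succ, totalDegree_mul_of_isDomain (pow_ne_zero _ (X_ne_zero a)) (X_ne_zero a), ih]
    simp

lemma sigC_iter_ne_zero (i : ℕ) {x : CR k n N} (hx : x ≠ 0) : (sigC k n N)^[i] x ≠ 0 := by
  induction i with
  | zero => exact hx
  | succ i ih =>
    rw [Function.iterate_succ_apply']
    simpa using ih

/-- `τ` in the fraction field -/
noncomputable def tau : FR k n N := algebraMap (CR k n N) _ (X none)

lemma sigF_tau : sigF k n N (tau k n N) = tau k n N := by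
  unfold tau
  rw [sigF_algebraMap, sigC_X, perm_none]

theorem norm_dvd (θ : FR k n N) (d : ℕ)
    (h : (∏ i ∈ range (N + 1), (sigF k n N)^[i] θ) = tau k n N ^ d) : (N + 1) ∣ d := by
  obtain ⟨p, q, hq, rfl⟩ := IsFractionRing.div_surjective (A := CR k n N) θ
  have hq0 : q ≠ 0 := nonZeroDivisors.ne_zero hq
  have hinj := IsFractionRing.injective (CR k n N) (FR k n N)
  have h1 : ∀ i, (sigF k n N)^[i] (algebraMap _ _ p / algebraMap _ _ q) =
      algebraMap _ _ ((sigC k n N)^[i] p) / algebraMap _ _ ((sigC k n N)^[i] q) := by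
    intro i
    rw [← RingHom.coe_pow, map_div₀, RingHom.coe_pow, sigF_iter_algebraMap,
      sigF_iter_algebraMap]
  simp only [h1, prod_div_distrib] at h
  have hne : (∏ i ∈ range (N + 1), algebraMap (CR k n N) (FR k n N) ((sigC k n N)^[i] q)) ≠ 0 := by
    rw [prod_ne_zero_iff]
    intro i _ h0
    exact sigC_iter_ne_zero k n N i hq0 (hinj (by rw [h0, map_zero]))
  rw [div_eq_iff hne] at h
  unfold tau at h
  rw [← map_prod, ← map_prod, ← map_pow, ← map_mul] at h
  have h2 := hinj h
  have hp0 : p ≠ 0 := by
    rintro rfl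
    have h3 : (∏ i ∈ range (N + 1), (sigC k n N)^[i] (0 : CR k n N)) = 0 := by
      apply prod_eq_zero (i := 0) (by simp)
      rfl
    rw [h3] at h2
    have h4 := mul_eq_zero.mp h2.symm
    rcases h4 with h4 | h4
    · exact pow_ne_zero _ (X_ne_zero _) h4
    · rw [prod_eq_zero_iff] at h4
      obtain ⟨i, _, h5⟩ := h4
      exact sigC_iter_ne_zero k n N i hq0 h5
  have h6 := congrArg totalDegree h2
  rw [totalDegree_mul_of_isDomain (pow_ne_zero _ (X_ne_zero _))
    (prod_ne_zero_iff.mpr fun i _ => sigC_iter_ne_zero k n N i hq0),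
    totalDegree_prod_range k _ _ (fun i => sigC_iter_ne_zero k n N i hp0),
    totalDegree_prod_range k _ _ (fun i => sigC_iter_ne_zero k n N i hq0),
    totalDegree_X_pow'] at h6
  simp only [totalDegree_sigC_iter, sum_const, card_range, smul_eq_mul] at h6
  exact (Nat.dvd_add_left (Dvd.intro _ rfl)).mp (h6 ▸ Dvd.intro _ rfl)

/-- the generic matrices -/
noncomputable def XG (j : Fin n) : Matrix (Fin (N + 1)) (Fin (N + 1)) (CR k n N) :=
  Matrix.of fun l m => (if l < m then X none else 1) * X (some (j, l, m))

/-- the semilinear operator -/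
noncomputable def Usem : (Fin (N + 1) → FR k n N) →+ (Fin (N + 1) → FR k n N) where
  toFun v := fun l => (if l = 0 then tau k n N else 1) * sigF k n N (v (l - 1))
  map_zero' := by funext l; simp
  map_add' v w := by funext l; simp [mul_add]

lemma Usem_apply (v : Fin (N + 1) → FR k n N) (l : Fin (N + 1)) :
    Usem k n N v l = (if l = 0 then tau k n N else 1) * sigF k n N (v (l - 1)) := rfl

lemma Usem_smul (r : FR k n N) (v : Fin (N + 1) → FR k n N) :
    Usem k n N (r • v) = sigF k n N r • Usem k n N v := by
  funext l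
  simp only [Usem_apply, Pi.smul_apply, smul_eq_mul, map_mul]
  ring

lemma cyc_aux {R : Type*} [CommMonoid R] (t : R) (l m : Fin (N + 1)) :
    (if l + 1 = 0 then t else 1) * (if l < m then t else 1) =
      (if l + 1 < m + 1 then t else 1) * (if m + 1 = 0 then t else 1) := by
  have h0 : ∀ i : Fin (N + 1), i + 1 = 0 ↔ i = Fin.last N := by
    intro i
    rw [Fin.ext_iff, Fin.val_add_one]
    split_ifs with h
    · simp [h]
    · simp [h]
  simp only [h0, Fin.lt_def, Fin.val_add_one]
  have hl := l.is_lt
  have hm := m.is_lt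
  have e1 : ∀ i : Fin (N + 1), i = Fin.last N ↔ i.val = N := fun i => by
    rw [Fin.ext_iff, Fin.val_last]
  simp only [e1]
  split_ifs <;> simp <;> omega

lemma Usem_comm (j : Fin n) (v : Fin (N + 1) → FR k n N) :
    Usem k n N (((XG k n N j).map (algebraMap _ (FR k n N))).mulVec v) =
      ((XG k n N j).map (algebraMap _ (FR k n N))).mulVec (Usem k n N v) := by
  funext l'
  obtain ⟨l, rfl⟩ : ∃ l, l' = l + 1 := ⟨l' - 1, by simp⟩
  rw [Usem_apply, Matrix.mulVec, Matrix.mulVec, dotProduct, dotProduct, add_sub_cancel_right,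
    map_sum, mul_sum]
  apply Fintype.sum_equiv (Equiv.addRight (1 : Fin (N + 1)))
  intro m
  rw [Equiv.coe_addRight]
  beta_reduce
  rw [Usem_apply, add_sub_cancel_right, map_mul]
  have h1 : sigF k n N ((XG k n N j).map (algebraMap _ (FR k n N)) l m) =
      (if l < m then tau k n N else 1) *
        algebraMap _ _ (X (some (j, l + 1, m + 1)) : CR k n N) := by
    rw [Matrix.map_apply, sigF_algebraMap]
    simp only [XG, Matrix.of_apply, map_mul, sigC_X, perm_some]
    split_ifs
    · rw [sigC_X, perm_none]; rfl
    · simp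
  have h2 : (XG k n N j).map (algebraMap _ (FR k n N)) (l + 1) (m + 1) =
      (if l + 1 < m + 1 then tau k n N else 1) *
        algebraMap _ _ (X (some (j, l + 1, m + 1)) : CR k n N) := by
    rw [Matrix.map_apply]
    simp only [XG, Matrix.of_apply, map_mul]
    split_ifs
    · rfl
    · simp
  rw [h1, h2]
  have h3 := cyc_aux N (tau k n N) l m
  calc _ = ((if l + 1 = 0 then tau k n N else 1) * (if l < m then tau k n N else 1)) *
        (algebraMap _ _ (X (some (j, l + 1, m + 1)) : CR k n N) * sigF k n N (v m)) := by ring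
    _ = _ := by rw [h3]; ring

lemma Usem_iter (i : ℕ) (v : Fin (N + 1) → FR k n N) (l : Fin (N + 1)) :
    (Usem k n N)^[i] v l =
      (∏ j ∈ range i, (if l - (j : Fin (N + 1)) = 0 then tau k n N else 1)) *
        (sigF k n N)^[i] (v (l - (i : Fin (N + 1)))) := by
  induction i generalizing l with
  | zero => simp
  | succ i ih =>
    rw [Function.iterate_succ_apply', Usem_apply, ih, map_mul, map_prod, prod_range_succ',
      Function.iterate_succ_apply']
    have h1 : ∀ j : ℕ, sigF k n N (if l - 1 - (j : Fin (N + 1)) = 0 then tau k n N else 1) =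
        if l - ((j + 1 : ℕ) : Fin (N + 1)) = 0 then tau k n N else 1 := by
      intro j
      rw [apply_ite (sigF k n N), sigF_tau, map_one]
      congr 2
      push_cast
      ring
    simp only [h1]
    have h2 : l - 1 - (i : Fin (N + 1)) = l - ((i + 1 : ℕ) : Fin (N + 1)) := by
      push_cast
      ring
    rw [h2]
    simp only [Nat.cast_zero, sub_zero]
    ring

lemma Usem_iter_N (v : Fin (N + 1) → FR k n N) :
    (Usem k n N)^[N + 1] v = tau k n N • v := by
  funext l
  rw [Usem_iter, sigF_iter_N, prod_range]
  have h1 : ((N + 1 : ℕ) : Fin (N + 1)) = 0 := by simp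
  rw [h1, sub_zero]
  have h2 : ∀ j : Fin (N + 1), (if l - ((j : ℕ) : Fin (N + 1)) = 0 then tau k n N else 1) =
      if l = j then tau k n N else 1 := by
    intro j
    simp only [Fin.cast_val_eq_self, sub_eq_zero]
  simp only [h2]
  rw [prod_ite_eq]
  simp

end generic

end Pool.Agent.GE
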