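import Pool.Agent.GE.Core

/-!
Step C: transfer of the uniform claim from a ring `C` to a residue field `k`.
-/

namespace Pool.Agent.GE

universe u

variable {n : ℕ}

/-- the part of `J` at words of length zero -/
noncomputable def J0 {K V : Type*} [Semiring K] [AddCommMonoid V] [Module K V]
    (c : Fin n → (List (Fin n) →₀ K)) (X : Fin n → V → V) (h : Fin n → V) (k : Fin n) : V :=
  (c k).sum fun w r => r • E X (fun i v => if v = [] then h i else 0) w

lemma map_J0 {K V : Type*} [Semiring K] [AddCommMonoid V] [Module K V]
    (c : Fin n → (List (Fin n) →₀ K)) (X : Fin n → V → V)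
    {V' : Type*} [AddCommMonoid V'] [Module K V'] (X' : Fin n → V' → V') (U : V →+ V')
    (hU : ∀ i v, U (X i v) = X' i (U v)) (hU' : ∀ (r : K) v, U (r • v) = r • U v)
    (h : Fin n → V) (k : Fin n) :
    U (J0 c X h k) = J0 c X' (fun i => U (h i)) k := by
  unfold J0
  rw [map_finsuppSum]
  apply Finsupp.sum_congr
  intro w _
  rw [hU', map_E X X' U hU]
  congr 2
  funext i v
  split_ifs <;> simp

section

variable {K F V : Type*} [CommSemiring K] [Semiring F] [AddCommGroup V]
    [Module K V] [Module F V] [SMulCommClass K F V]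
    (c : Fin n → (List (Fin n) →₀ K)) (X : Fin n → V →ₗ[F] V)

lemma J0_add (h h' : Fin n → V) (k : Fin n) :
    J0 c (fun i => (X i : V → V)) (h + h') k =
      J0 c (fun i => (X i : V → V)) h k + J0 c (fun i => (X i : V → V)) h' k := by
  unfold J0
  rw [← Finsupp.sum_add]
  apply Finsupp.sum_congr
  intro w _
  rw [← smul_add, ← E_add X]
  congr 2
  funext i v
  split_ifs <;> simp

lemma J0_smul (r : F) (h : Fin n → V) (k : Fin n) :
    J0 c (fun i => (X i : V → V)) (r • h) k = r • J0 c (fun i => (X i : V → V)) h k := by
  unfold J0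
  rw [Finsupp.smul_sum]
  apply Finsupp.sum_congr
  intro w _
  rw [← smul_comm, ← E_smul X]
  congr 2
  funext i v
  split_ifs <;> simp

/-- `J0` as a linear map -/
noncomputable def J0lin : (Fin n → V) →ₗ[F] (Fin n → V) where
  toFun h := J0 c (fun i => (X i : V → V)) h
  map_add' h h' := funext fun k => J0_add c X h h' k
  map_smul' r h := funext fun k => J0_smul c X r h k

/-- modification at words of length `m` -/
lemma J_modify (γ : Fin n → List (Fin n) → V) (h : List (Fin n) → Fin n → V) (m : ℕ)
    (k : Fin n) (a : List (Fin n)) (ha : m ≤ a.length) :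
    J c (fun i => (X i : V → V)) (fun i v => if v.length = m then γ i v - h v i else γ i v) k a =
      J c (fun i => (X i : V → V)) γ k a -
        if a.length = m then J0 c (fun i => (X i : V → V)) (h a) k else 0 := by
  by_cases hm : a.length = m
  · rw [if_pos hm, eq_sub_iff_add_eq]
    unfold J J0
    rw [← Finsupp.sum_add]
    apply Finsupp.sum_congr
    intro w _
    rw [← smul_add, ← E_add X]
    congr 2
    funext i v
    by_cases hv : v = []
    · subst hv
      simp [hm]
    · beta_reduce
      rw [if_neg hv, if_neg, add_zero]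
      intro hcon
      rw [List.length_append] at hcon
      exact hv (List.length_eq_zero_iff.mp (by omega))
  · rw [if_neg hm, sub_zero]
    unfold J
    apply Finsupp.sum_congr
    intro w _
    congr 2
    funext i v
    beta_reduce
    rw [if_neg]
    rw [List.length_append]
    omega

end

section

variable {K k C : Type u} [Field K] [Field k] [CommRing C] [Algebra K k] [Algebra K C]

/-- entrywise application of a ring homomorphism to a vector -/
def mapVec {N : ℕ} (sp : C →ₐ[K] k) : (Fin N → C) →+ (Fin N → k) where
  toFun v := fun l => sp (v l)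
  map_zero' := by funext l; simp
  map_add' v w := by funext l; simp

lemma mapVec_mulVec {N : ℕ} (sp : C →ₐ[K] k) (M : Matrix (Fin N) (Fin N) C) (v : Fin N → C) :
    mapVec sp (M.mulVec v) = (M.map sp).mulVec (mapVec sp v) := by
  funext l
  simp [mapVec, Matrix.mulVec, dotProduct]

lemma mapVec_smul {N : ℕ} (sp : C →ₐ[K] k) (r : K) (v : Fin N → C) :
    mapVec sp (r • v) = r • mapVec sp v := by
  funext l
  simp [mapVec]

theorem transfer {N b : ℕ} (c : Fin n → (List (Fin n) →₀ K)) (sp : C →ₐ[K] k)
    (hsp : Function.Surjective sp) (X : Fin n → Matrix (Fin N) (Fin N) C)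
    (hsurj : ∀ r : Fin n → Fin N → C, ∃ h : Fin n → Fin N → C,
      ∀ j, J0 c (fun i => ((X i).mulVecLin : (Fin N → C) → (Fin N → C))) h j = r j)
    (hinj : ∀ h : Fin n → Fin N → k,
      (∀ j, J0 c (fun i => (((X i).map sp).mulVecLin : (Fin N → k) → (Fin N → k))) h j = 0) →
        ∀ i, h i = 0)
    (hUC : ∀ γ : Fin n → List (Fin n) → (Fin N → C), (∀ j a, a.length ≤ b →
      J c (fun i => ((X i).mulVecLin : (Fin N → C) → (Fin N → C))) γ j a = 0) →
      ∀ i, γ i [] = 0)
    (γ : Fin n → List (Fin n) → (Fin N → k))
    (hγ : ∀ j a, a.length ≤ b →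
      J c (fun i => (((X i).map sp).mulVecLin : (Fin N → k) → (Fin N → k))) γ j a = 0)
    (i : Fin n) : γ i [] = 0 := by
  classical
  have hU : ∀ (i : Fin n) (v : Fin N → C),
      mapVec sp ((X i).mulVecLin v) = ((X i).map sp).mulVecLin (mapVec sp v) := by
    intro i v
    rw [Matrix.mulVecLin_apply, Matrix.mulVecLin_apply]
    exact mapVec_mulVec sp (X i) v
  have key : ∀ t m : ℕ, t + m = b + 1 → ∃ γ' : Fin n → List (Fin n) → (Fin N → C),
      (∀ i v, mapVec sp (γ' i v) = γ i v) ∧
      ∀ j a, m ≤ a.length → a.length ≤ b →
        J c (fun i => ((X i).mulVecLin : (Fin N → C) → (Fin N → C))) γ' j a = 0 := by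
    intro t
    induction t with
    | zero =>
      intro m hm
      refine ⟨fun i v l => (hsp (γ i v l)).choose, ?_, ?_⟩
      · intro i v
        funext l
        exact (hsp (γ i v l)).choose_spec
      · intro j a h1 h2
        omega
    | succ t ih =>
      intro m hm
      obtain ⟨γ', h1, h2⟩ := ih (m + 1) (by omega)
      choose h hh using fun a : List (Fin n) => hsurj (fun j =>
        J c (fun i => ((X i).mulVecLin : (Fin N → C) → (Fin N → C))) γ' j a)
      refine ⟨fun i v => if v.length = m then γ' i v - h v i else γ' i v, ?_, ?_⟩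
      · intro i v
        beta_reduce
        split_ifs with hv
        · have h3 : ∀ i, mapVec sp (h v i) = 0 := by
            apply hinj
            intro j
            rw [← map_J0 c (fun i => ((X i).mulVecLin : (Fin N → C) → (Fin N → C)))
              (fun i => (((X i).map sp).mulVecLin : (Fin N → k) → (Fin N → k)))
              (mapVec sp) hU (mapVec_smul sp), hh v j,
              map_J c (fun i => ((X i).mulVecLin : (Fin N → C) → (Fin N → C)))
              (fun i => (((X i).map sp).mulVecLin : (Fin N → k) → (Fin N → k)))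
              (mapVec sp) hU (mapVec_smul sp)]
            simp only [h1]
            exact hγ j v (by omega)
          rw [map_sub, h3 i, sub_zero, h1]
        · exact h1 i v
      · intro j a ha hb
        rw [J_modify c (fun i => (X i).mulVecLin) γ' h m j a ha]
        split_ifs with hm'
        · rw [hh a j, sub_self]
        · rw [sub_zero]
          exact h2 j a (by omega) hb
  obtain ⟨γ', h1, h2⟩ := key (b + 1) 0 (by omega)
  have h3 := hUC γ' (fun j a ha => h2 j a (Nat.zero_le _) ha) i
  rw [← h1 i [], h3, map_zero]

end

end Pool.Agent.GE
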