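import Pool.Agent.GE.End
import Pool.Agent.GE.StepC

/-!
From injectivity on matrices over fields to the hypothesis of Step A and to the injectivity
of `J0`.
-/

namespace Pool.Agent.GE

universe u

variable {n : ℕ}

section

variable {K F : Type u} [Field K] [Field F] [Algebra K F]

/-- injectivity on endomorphism rings of finite-dimensional spaces -/
theorem InjMat.end_injOn {f : Fin n → FreeAlgebra K (Fin n)} (h : InjMat f)
    (T : Type u) [AddCommGroup T] [Module K T] [Module F T] [IsScalarTower K F T]
    [FiniteDimensional F T] : InjOn f (Module.End F T) := by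
  classical
  let e := (LinearMap.toMatrixAlgEquiv (Module.finBasis F T)).restrictScalars K
  exact (h F (Fin (Module.finrank F T))).of_injective e.toAlgHom e.injective

/-- the block operator `[[X, π], [0, Z]]` -/
def blkOp {V M : Type u} [AddCommGroup V] [Module F V] [AddCommGroup M] [Module F M]
    (X : Module.End F V) (π : M →ₗ[F] V) (Z : Module.End F M) : Module.End F (V × M) :=
  (X.comp (LinearMap.fst F V M) + π.comp (LinearMap.snd F V M)).prod
    (Z.comp (LinearMap.snd F V M))

lemma blkOp_apply {V M : Type u} [AddCommGroup V] [Module F V] [AddCommGroup M] [Module F M]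
    (X : Module.End F V) (π : M →ₗ[F] V) (Z : Module.End F M) (v : V) (m : M) :
    blkOp X π Z (v, m) = (X v + π m, Z m) := rfl

lemma prod_blkOp {V M : Type u} [AddCommGroup V] [Module F V] [AddCommGroup M] [Module F M]
    (X : Fin n → Module.End F V) (π : Fin n → M →ₗ[F] V) (Z : Fin n → Module.End F M)
    (w : List (Fin n)) (v : V) (m : M) :
    (w.map fun i => blkOp (X i) (π i) (Z i)).prod (v, m) =
      ((w.map X).prod v + E (fun i => (X i : V → V)) (fun i v' => π i ((v'.map Z).prod m)) w,
        (w.map Z).prod m) := by
  induction w with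
  | nil => simp
  | cons i w ih =>
    rw [List.map_cons, List.prod_cons, Module.End.mul_apply, ih, blkOp_apply]
    simp only [List.map_cons, List.prod_cons, Module.End.mul_apply, E_cons, map_add, add_assoc]

theorem InjMat.block {f : Fin n → FreeAlgebra K (Fin n)} (h : InjMat f)
    (c : Fin n → (List (Fin n) →₀ K)) (hc : ∀ j, f j = (c j).sum fun w r => r • wd K w)
    {V : Type u} [AddCommGroup V] [Module K V] [Module F V] [IsScalarTower K F V]
    [FiniteDimensional F V] (X : Fin n → Module.End F V)
    (M : Type u) [AddCommGroup M] [Module F M] [FiniteDimensional F M]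
    (Z : Fin n → Module.End F M) (π : Fin n → M →ₗ[F] V)
    (hyp : ∀ k m, ((c k).sum fun w r => r • E (fun i => (X i : V → V))
        (fun i v => π i ((v.map Z).prod m)) w) = 0) : ∀ i, π i = 0 := by
  let _ : Module K M := Module.compHom M (algebraMap K F)
  have _ : IsScalarTower K F M := ⟨fun a b m => by
    change (a • b) • m = (algebraMap K F a) • (b • m)
    rw [Algebra.smul_def, mul_smul]⟩
  have hinj := h.end_injOn (F := F) (V × M)
  have key := hinj (fun i => blkOp (X i) (π i) (Z i)) (fun i => blkOp (X i) 0 (Z i)) (by
    intro j
    rw [hc j, map_finsuppSum, map_finsuppSum]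
    simp only [map_smul, lift_wd]
    refine LinearMap.ext ?_
    rintro ⟨v, m⟩
    simp only [Finsupp.sum, LinearMap.sum_apply, LinearMap.smul_apply]
    have h1 : ∀ w : List (Fin n),
        (w.map fun i => blkOp (X i) (π i) (Z i)).prod (v, m) =
        (w.map fun i => blkOp (X i) (0 : M →ₗ[F] V) (Z i)).prod (v, m) +
        (E (fun i => (X i : V → V)) (fun i v' => π i ((v'.map Z).prod m)) w, 0) := by
      intro w
      rw [prod_blkOp X π Z w v m, prod_blkOp X (fun _ => 0) Z w v m]
      have h0 : E (fun i => (X i : V → V))
          (fun i v' => (0 : M →ₗ[F] V) ((v'.map Z).prod m)) w = 0 := by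
        have := E_zero X w
        simpa using this
      rw [h0]
      ext <;> simp
    simp only [h1, smul_add]
    rw [Finset.sum_add_distrib, add_eq_left]
    have h2 := hyp j m
    rw [Finsupp.sum] at h2
    ext
    · simp only [Prod.smul_mk, Prod.fst_sum, Prod.fst_zero]
      exact h2
    · simp [Prod.snd_sum])
  intro i
  have := congrFun key i
  refine LinearMap.ext fun m => ?_
  have h3 := congrArg (fun g => (g (0, m)).1) this
  simpa [blkOp_apply] using h3

/-- `J0` is injective over fields -/
theorem InjMat.J0_injective {f : Fin n → FreeAlgebra K (Fin n)} (h : InjMat f)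
    (c : Fin n → (List (Fin n) →₀ K)) (hc : ∀ j, f j = (c j).sum fun w r => r • wd K w)
    {V : Type u} [AddCommGroup V] [Module K V] [Module F V] [IsScalarTower K F V]
    [FiniteDimensional F V] (X : Fin n → Module.End F V) (g : Fin n → V)
    (hg : ∀ j, J0 c (fun i => (X i : V → V)) g j = 0) : ∀ i, g i = 0 := by
  have := h.block c hc X F (fun _ => 0) (fun i => LinearMap.toSpanSingleton F V (g i)) (by
    intro k m
    have h1 := J0_smul c X m g k
    rw [hg k, smul_zero] at h1
    rw [← h1]
    unfold J0
    apply Finsupp.sum_congr
    intro w _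
    congr 2
    funext i v
    cases v with
    | nil => simp [LinearMap.toSpanSingleton_apply]
    | cons a v => simp)
  intro i
  have h2 := congrArg (fun g => g 1) (this i)
  simpa using h2

end

end Pool.Agent.GE
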