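import Mathlib
import Pool.Agent.GE.Defs

/-!
Good endomorphisms are injective on all matrix points.
-/

namespace Pool.Agent.GE

universe u v

section Blocks

variable {K : Type u} [Field K] {n : ℕ} {Λ : Type v} [CommRing Λ] [Algebra K Λ]
  {ι : Type} [Fintype ι] [DecidableEq ι]

/-- Upper triangular block points. -/
def blk (X Y H : Fin n → Matrix ι ι Λ) : Fin n → Matrix (ι ⊕ ι) (ι ⊕ ι) Λ :=
  fun i => Matrix.fromBlocks (X i) (H i) 0 (Y i)

/-- The difference-differential operator of a noncommutative polynomial. -/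
noncomputable def dd (X Y H : Fin n → Matrix ι ι Λ) (a : FreeAlgebra K (Fin n)) : Matrix ι ι Λ :=
  (FreeAlgebra.lift K (blk X Y H) a).toBlocks₁₂

theorem lift_blk (X Y H : Fin n → Matrix ι ι Λ) (a : FreeAlgebra K (Fin n)) :
    FreeAlgebra.lift K (blk X Y H) a =
      Matrix.fromBlocks (FreeAlgebra.lift K X a) (dd X Y H a) 0 (FreeAlgebra.lift K Y a) := by
  suffices h : (FreeAlgebra.lift K (blk X Y H) a).toBlocks₁₁ = FreeAlgebra.lift K X a ∧
      (FreeAlgebra.lift K (blk X Y H) a).toBlocks₂₁ = 0 ∧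
      (FreeAlgebra.lift K (blk X Y H) a).toBlocks₂₂ = FreeAlgebra.lift K Y a by
    rw [← h.1, ← h.2.2, dd, ← h.2.1, Matrix.fromBlocks_toBlocks]
  induction a using FreeAlgebra.induction with
  | grade0 r =>
    rw [AlgHom.commutes, AlgHom.commutes, AlgHom.commutes]
    refine ⟨?_, ?_, ?_⟩ <;> ext i j <;>
      simp [Matrix.toBlocks₁₁, Matrix.toBlocks₂₁, Matrix.toBlocks₂₂, Matrix.algebraMap_matrix_apply]
  | grade1 i =>
    simp [blk]
  | mul a b ha hb =>
    rw [map_mul, map_mul, map_mul]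
    have ea := (Matrix.fromBlocks_toBlocks (FreeAlgebra.lift K (blk X Y H) a)).symm
    have eb := (Matrix.fromBlocks_toBlocks (FreeAlgebra.lift K (blk X Y H) b)).symm
    rw [ha.1, ha.2.1, ha.2.2] at ea
    rw [hb.1, hb.2.1, hb.2.2] at eb
    rw [ea, eb, Matrix.fromBlocks_multiply]
    simp
  | add a b ha hb =>
    rw [map_add, map_add, map_add]
    have ea := (Matrix.fromBlocks_toBlocks (FreeAlgebra.lift K (blk X Y H) a)).symm
    have eb := (Matrix.fromBlocks_toBlocks (FreeAlgebra.lift K (blk X Y H) b)).symm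
    rw [ha.1, ha.2.1, ha.2.2] at ea
    rw [hb.1, hb.2.1, hb.2.2] at eb
    rw [ea, eb, Matrix.fromBlocks_add]
    simp

theorem dd_mul (X Y H : Fin n → Matrix ι ι Λ) (a b : FreeAlgebra K (Fin n)) :
    dd X Y H (a * b) = FreeAlgebra.lift K X a * dd X Y H b +
      dd X Y H a * FreeAlgebra.lift K Y b := by
  conv_lhs => rw [dd, map_mul, lift_blk X Y H a, lift_blk X Y H b, Matrix.fromBlocks_multiply]
  simp

theorem dd_add (X Y H : Fin n → Matrix ι ι Λ) (a b : FreeAlgebra K (Fin n)) :
    dd X Y H (a + b) = dd X Y H a + dd X Y H b := by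
  simp only [dd, map_add]; rfl

theorem dd_smul (X Y H : Fin n → Matrix ι ι Λ) (r : K) (a : FreeAlgebra K (Fin n)) :
    dd X Y H (r • a) = r • dd X Y H a := by
  simp only [dd, map_smul]; rfl

theorem dd_algebraMap (X Y H : Fin n → Matrix ι ι Λ) (r : K) :
    dd X Y H (algebraMap K (FreeAlgebra K (Fin n)) r) = 0 := by
  rw [dd, AlgHom.commutes]
  ext i j
  simp [Matrix.toBlocks₁₂, Matrix.algebraMap_matrix_apply]

theorem dd_zero (X Y H : Fin n → Matrix ι ι Λ) :
    dd X Y H (0 : FreeAlgebra K (Fin n)) = 0 := by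
  simp only [dd, map_zero]; rfl

theorem dd_one (X Y H : Fin n → Matrix ι ι Λ) :
    dd X Y H (1 : FreeAlgebra K (Fin n)) = 0 := by
  rw [← map_one (algebraMap K (FreeAlgebra K (Fin n))), dd_algebraMap]

theorem dd_ι (X Y H : Fin n → Matrix ι ι Λ) (i : Fin n) :
    dd X Y H (FreeAlgebra.ι K i) = H i := by
  simp [dd, blk]

/-- `dd` is linear in the direction. -/
noncomputable def ddLin (X Y : Fin n → Matrix ι ι Λ) (a : FreeAlgebra K (Fin n)) :
    (Fin n → Matrix ι ι Λ) →ₗ[Λ] Matrix ι ι Λ where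
  toFun H := dd X Y H a
  map_add' H H' := by
    induction a using FreeAlgebra.induction with
    | grade0 r => simp [dd_algebraMap]
    | grade1 i => simp [dd_ι]
    | mul a b ha hb => rw [dd_mul, dd_mul, dd_mul, ha, hb]; noncomm_ring
    | add a b ha hb => rw [dd_add, dd_add, dd_add, ha, hb]; abel
  map_smul' c H := by
    induction a using FreeAlgebra.induction with
    | grade0 r => simp [dd_algebraMap]
    | grade1 i => simp [dd_ι]
    | mul a b ha hb =>
      rw [dd_mul, dd_mul, ha, hb]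
      simp [smul_add]
    | add a b ha hb => rw [dd_add, dd_add, ha, hb]; simp [smul_add]

theorem dd_sub (X Y : Fin n → Matrix ι ι Λ) (a : FreeAlgebra K (Fin n)) :
    dd X Y (fun i => X i - Y i) a = FreeAlgebra.lift K X a - FreeAlgebra.lift K Y a := by
  induction a using FreeAlgebra.induction with
  | grade0 r => simp [dd_algebraMap]
  | grade1 i => simp [dd_ι]
  | mul a b ha hb => rw [dd_mul, map_mul, map_mul, ha, hb]; noncomm_ring
  | add a b ha hb => rw [dd_add, map_add, map_add, ha, hb]; abel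

/-- The Jacobian of a tuple at the pair of points `X, Y`. -/
noncomputable def Jac (X Y : Fin n → Matrix ι ι Λ) (f : Fin n → FreeAlgebra K (Fin n)) :
    (Fin n → Matrix ι ι Λ) →ₗ[Λ] (Fin n → Matrix ι ι Λ) :=
  LinearMap.pi fun j => ddLin X Y (f j)

theorem Jac_apply (X Y : Fin n → Matrix ι ι Λ) (f : Fin n → FreeAlgebra K (Fin n))
    (H : Fin n → Matrix ι ι Λ) (j : Fin n) : Jac X Y f H j = dd X Y H (f j) := rfl

/-- Evaluation of a tuple. -/
noncomputable def ev (f : Fin n → FreeAlgebra K (Fin n)) (X : Fin n → Matrix ι ι Λ) :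
    Fin n → Matrix ι ι Λ := fun j => FreeAlgebra.lift K X (f j)

theorem ev_blk (X Y H : Fin n → Matrix ι ι Λ) (f : Fin n → FreeAlgebra K (Fin n)) :
    (fun j => FreeAlgebra.lift K (blk X Y H) (f j)) = blk (ev f X) (ev f Y) (Jac X Y f H) := by
  funext j
  rw [lift_blk]
  rfl

theorem lift_comp_apply {S : Type*} [Ring S] [Algebra K S]
    (g : Fin n → FreeAlgebra K (Fin n)) (T : Fin n → S) (a : FreeAlgebra K (Fin n)) :
    FreeAlgebra.lift K T (FreeAlgebra.lift K g a) =
      FreeAlgebra.lift K (fun i => FreeAlgebra.lift K T (g i)) a := by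
  have : (FreeAlgebra.lift K T).comp (FreeAlgebra.lift K g) =
      FreeAlgebra.lift K (fun i => FreeAlgebra.lift K T (g i)) := by
    ext i; simp
  rw [← this]; rfl

/-- Chain rule. -/
theorem Jac_comp (X Y : Fin n → Matrix ι ι Λ) (g f : Fin n → FreeAlgebra K (Fin n)) :
    Jac X Y (fun j => FreeAlgebra.lift K g (f j)) =
      (Jac (ev g X) (ev g Y) f).comp (Jac X Y g) := by
  ext1 i
  ext1 H
  funext j
  simp only [LinearMap.comp_apply]
  generalize (LinearMap.single Λ (fun _ : Fin n => Matrix ι ι Λ) i) H = H'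
  rw [Jac_apply, Jac_apply, dd, lift_comp_apply, ev_blk]
  rfl

theorem Jac_id (X Y : Fin n → Matrix ι ι Λ) :
    Jac X Y (fun j => FreeAlgebra.ι K j) = LinearMap.id := by
  ext1 i
  ext1 H
  funext j
  simp only [LinearMap.comp_apply]
  rw [Jac_apply, dd_ι]
  rfl

/-- The Jacobian determinant. -/
noncomputable def detJ (X Y : Fin n → Matrix ι ι Λ) (f : Fin n → FreeAlgebra K (Fin n)) : Λ :=
  LinearMap.det (Jac X Y f)

theorem detJ_comp (X Y : Fin n → Matrix ι ι Λ) (g f : Fin n → FreeAlgebra K (Fin n)) :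
    detJ X Y (fun j => FreeAlgebra.lift K g (f j)) = detJ (ev g X) (ev g Y) f * detJ X Y g := by
  rw [detJ, Jac_comp, LinearMap.det_comp]
  rfl

theorem detJ_id (X Y : Fin n → Matrix ι ι Λ) :
    detJ X Y (fun j => FreeAlgebra.ι K j) = 1 := by
  rw [detJ, Jac_id, LinearMap.det_id]

theorem algHom_eq_lift (φ : FreeAlgebra K (Fin n) →ₐ[K] FreeAlgebra K (Fin n)) :
    φ = FreeAlgebra.lift K (fun j => φ (FreeAlgebra.ι K j)) := by
  ext i; simp

theorem isUnit_detJ_of_aut (θ : FreeAlgebra K (Fin n) ≃ₐ[K] FreeAlgebra K (Fin n))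
    (X Y : Fin n → Matrix ι ι Λ) :
    IsUnit (detJ X Y (fun j => θ (FreeAlgebra.ι K j))) := by
  have h := detJ_comp X Y (fun j => θ (FreeAlgebra.ι K j)) (fun j => θ.symm (FreeAlgebra.ι K j))
  have h2 : (fun j => FreeAlgebra.lift K (fun j => θ (FreeAlgebra.ι K j))
      (θ.symm (FreeAlgebra.ι K j))) = fun j => FreeAlgebra.ι K j := by
    funext j
    have := algHom_eq_lift (θ : FreeAlgebra K (Fin n) →ₐ[K] FreeAlgebra K (Fin n))
    have h3 : FreeAlgebra.lift K (fun j => θ (FreeAlgebra.ι K j)) =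
        (θ : FreeAlgebra K (Fin n) →ₐ[K] FreeAlgebra K (Fin n)) := this.symm
    rw [h3]
    simp
  rw [h2, detJ_id] at h
  exact IsUnit.of_mul_eq_one_right _ h.symm

/-- Standard basis of the space of tuples of matrices. -/
noncomputable def tb (n : ℕ) (Λ : Type v) [CommRing Λ] (ι : Type) [Fintype ι] :
    Module.Basis (Σ _ : Fin n, ι × ι) Λ (Fin n → Matrix ι ι Λ) :=
  Pi.basis fun _ => Matrix.stdBasis Λ ι ι

theorem toMatrix_Jac (X Y : Fin n → Matrix ι ι Λ) (f : Fin n → FreeAlgebra K (Fin n))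
    (s t : Σ _ : Fin n, ι × ι) :
    LinearMap.toMatrix (tb n Λ ι) (tb n Λ ι) (Jac X Y f) s t =
      (Jac X Y f (Pi.single t.1 (Matrix.single t.2.1 t.2.2 1))) s.1 s.2.1 s.2.2 := by
  rw [LinearMap.toMatrix_apply]
  simp only [tb]
  rw [Pi.basis_repr, Pi.basis_apply, Matrix.stdBasis_eq_single]
  rfl

theorem lift_map {Λ' : Type*} [CommRing Λ'] [Algebra K Λ'] (g : Λ →ₐ[K] Λ')
    (κ : Type) [Fintype κ] [DecidableEq κ]
    (T : Fin n → Matrix κ κ Λ) (a : FreeAlgebra K (Fin n)) :
    FreeAlgebra.lift K (fun i => (T i).map g) a = (FreeAlgebra.lift K T a).map g := by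
  have : FreeAlgebra.lift K (fun i => (T i).map g) = (g.mapMatrix).comp (FreeAlgebra.lift K T) := by
    ext i; simp
  rw [this]; rfl

theorem dd_map {Λ' : Type*} [CommRing Λ'] [Algebra K Λ'] (g : Λ →ₐ[K] Λ')
    (X Y H : Fin n → Matrix ι ι Λ) (a : FreeAlgebra K (Fin n)) :
    dd (fun i => (X i).map g) (fun i => (Y i).map g) (fun i => (H i).map g) a =
      (dd X Y H a).map g := by
  have : blk (fun i => (X i).map g) (fun i => (Y i).map g) (fun i => (H i).map g) =
      fun i => (blk X Y H i).map g := by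
    funext i
    simp only [blk, Matrix.fromBlocks_map]
    congr 1
    ext; simp
  rw [dd, this, lift_map g]
  rfl

/-- Naturality of the Jacobian determinant. -/
theorem detJ_map {Λ' : Type*} [CommRing Λ'] [Algebra K Λ'] (g : Λ →ₐ[K] Λ')
    (X Y : Fin n → Matrix ι ι Λ) (f : Fin n → FreeAlgebra K (Fin n)) :
    detJ (fun i => (X i).map g) (fun i => (Y i).map g) f = g (detJ X Y f) := by
  rw [detJ, detJ, ← LinearMap.det_toMatrix (tb n Λ' ι), ← LinearMap.det_toMatrix (tb n Λ ι)]
  have h0 : g (Matrix.det (LinearMap.toMatrix (tb n Λ ι) (tb n Λ ι) (Jac X Y f))) =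
      Matrix.det ((LinearMap.toMatrix (tb n Λ ι) (tb n Λ ι) (Jac X Y f)).map g) :=
    (g : Λ →+* Λ').map_det _
  rw [h0]
  congr 1
  ext s t
  rw [toMatrix_Jac, Matrix.map_apply, toMatrix_Jac]
  have h1 : (Pi.single t.1 (Matrix.single t.2.1 t.2.2 1) : Fin n → Matrix ι ι Λ') =
      fun i => ((Pi.single t.1 (Matrix.single t.2.1 t.2.2 1) : Fin n → Matrix ι ι Λ) i).map g := by
    funext i
    by_cases hi : i = t.1
    · subst hi
      simp [Matrix.map_single]
    · simp [Pi.single_eq_of_ne hi]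
  rw [h1, Jac_apply, Jac_apply, dd_map g]
  rfl

/-- Monomials. -/
noncomputable def mon (K : Type u) [Field K] {n : ℕ} (w : List (Fin n)) : FreeAlgebra K (Fin n) :=
  (w.map (FreeAlgebra.ι K)).prod

theorem mon_nil : mon K ([] : List (Fin n)) = 1 := rfl

theorem mon_cons (i : Fin n) (w : List (Fin n)) :
    mon K (i :: w) = FreeAlgebra.ι K i * mon K w := by
  simp [mon]

theorem lift_smul_mon (r : Λ) (X : Fin n → Matrix ι ι Λ) (w : List (Fin n)) :
    FreeAlgebra.lift K (fun i => r • X i) (mon K w) =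
      r ^ w.length • FreeAlgebra.lift K X (mon K w) := by
  induction w with
  | nil => simp [mon_nil]
  | cons i w ih =>
    rw [mon_cons, map_mul, map_mul, ih]
    simp only [FreeAlgebra.lift_ι_apply, List.length_cons, pow_succ]
    rw [smul_mul_assoc, mul_smul_comm, smul_smul, mul_comm]

theorem dd_smul_mon (r : Λ) (X Y H : Fin n → Matrix ι ι Λ) (i : Fin n) (w : List (Fin n)) :
    dd (fun i => r • X i) (fun i => r • Y i) H (mon K (i :: w)) =
      r ^ w.length • dd X Y H (mon K (i :: w)) := by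
  induction w generalizing i with
  | nil => simp [mon_cons, mon_nil, dd_ι]
  | cons j w ih =>
    rw [mon_cons i, dd_mul, dd_mul, ih, lift_smul_mon, dd_ι, dd_ι]
    simp only [FreeAlgebra.lift_ι_apply, List.length_cons, pow_succ]
    rw [smul_mul_assoc, mul_smul_comm, smul_smul, mul_smul_comm, smul_add, mul_comm]

theorem exists_dd_idealPow (r : Λ) (X Y : Fin n → Matrix ι ι Λ) (m : ℕ)
    (h : FreeAlgebra K (Fin n)) (hh : h ∈ idealPow K n (m + 1)) :
    ∃ N : (Fin n → Matrix ι ι Λ) →ₗ[Λ] Matrix ι ι Λ,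
      ∀ H, dd (fun i => r • X i) (fun i => r • Y i) H h = r ^ m • N H := by
  induction hh using Submodule.span_induction with
  | mem x hx =>
    obtain ⟨w, hw, rfl⟩ := hx
    cases w with
    | nil => simp at hw
    | cons i w =>
      obtain ⟨k, hk⟩ := Nat.exists_eq_add_of_le (Nat.le_of_succ_le_succ hw)
      refine ⟨r ^ k • ddLin X Y (mon K (i :: w)), fun H => ?_⟩
      change dd _ _ H (mon K (i :: w)) = _
      rw [dd_smul_mon, hk, pow_add, LinearMap.smul_apply, smul_smul]
      rfl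
  | zero => exact ⟨0, fun H => by simp [dd_zero]⟩
  | add x y hx hy ihx ihy =>
    obtain ⟨N1, h1⟩ := ihx
    obtain ⟨N2, h2⟩ := ihy
    exact ⟨N1 + N2, fun H => by rw [dd_add, h1, h2, LinearMap.add_apply, smul_add]⟩
  | smul a x hx ih =>
    obtain ⟨N, hN⟩ := ih
    refine ⟨algebraMap K Λ a • N, fun H => ?_⟩
    rw [dd_smul, hN, LinearMap.smul_apply, smul_comm, algebraMap_smul]

theorem exists_detJ_eq (r : Λ) (X Y : Fin n → Matrix ι ι Λ) (m : ℕ)
    (ψ : FreeAlgebra K (Fin n) →ₐ[K] FreeAlgebra K (Fin n))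
    (hψ : ∀ i, ψ (FreeAlgebra.ι K i) - FreeAlgebra.ι K i ∈ idealPow K n (m + 1)) :
    ∃ q : Λ, detJ (fun i => r • X i) (fun i => r • Y i) (fun j => ψ (FreeAlgebra.ι K j)) =
      1 + r ^ m * q := by
  choose N hN using fun i => exists_dd_idealPow (Λ := Λ) (ι := ι) r X Y m _ (hψ i)
  have h1 : Jac (fun i => r • X i) (fun i => r • Y i) (fun j => ψ (FreeAlgebra.ι K j)) =
      LinearMap.id + r ^ m • LinearMap.pi N := by
    apply LinearMap.ext
    intro H
    funext j
    have : ψ (FreeAlgebra.ι K j) = FreeAlgebra.ι K j +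
      (ψ (FreeAlgebra.ι K j) - FreeAlgebra.ι K j) := by abel
    rw [Jac_apply, this, dd_add, dd_ι, hN]
    rfl
  rw [detJ, h1, ← LinearMap.det_toMatrix (tb n Λ ι), map_add, LinearMap.toMatrix_id, map_smul,
    Matrix.det_one_add_smul]
  set M := LinearMap.toMatrix (tb n Λ ι) (tb n Λ ι) (LinearMap.pi N)
  exact ⟨Matrix.trace M + (Matrix.det (1 + (Polynomial.X : Polynomial Λ) •
    M.map Polynomial.C)).divX.divX.eval (r ^ m) * r ^ m, by ring⟩

end Blocks

section Main

open Polynomial

variable {K : Type u} [Field K] {n : ℕ} {L : Type u} [Field L] [Algebra K L]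
  {ι : Type} [Fintype ι] [DecidableEq ι]

/-- The line through the scalar point `a` and the point `X`, over a polynomial ring. -/
noncomputable def line {P : Type v} [CommRing P] [Algebra L P]
    (a : Fin n → P) (X : Fin n → Matrix ι ι L) : Fin n → Matrix ι ι P[X] :=
  fun i => Matrix.scalar ι (C (a i)) +
    (Polynomial.X : P[X]) • ((X i).map (fun c => C (algebraMap L P c)) -
      Matrix.scalar ι (C (a i)))

/-- The affine line based at the `K`-point `a`. -/
noncomputable def lineK (a : Fin n → K) (X : Fin n → Matrix ι ι L) : Fin n → Matrix ι ι L[X] :=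
  line (L := L) (P := L) (fun i => algebraMap K L (a i)) X

theorem exists_bound (X Y : Fin n → Matrix ι ι L) (f : Fin n → FreeAlgebra K (Fin n)) :
    ∃ B : ℕ, ∀ a : Fin n → K, (detJ (lineK a X) (lineK a Y) f).natDegree ≤ B := by
  let P := MvPolynomial (Fin n) L
  let v : Fin n → P := fun i => MvPolynomial.X i
  refine ⟨(detJ (line (L := L) v X) (line (L := L) v Y) f).natDegree, fun a => ?_⟩
  let e : P →ₐ[K] L := (MvPolynomial.aeval (fun i => algebraMap K L (a i)) :
    P →ₐ[L] L).restrictScalars K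
  let g : P[X] →ₐ[K] L[X] := Polynomial.mapAlgHom e
  have key : ∀ Z : Fin n → Matrix ι ι L, (fun i => (line (L := L) v Z i).map g) = lineK a Z := by
    intro Z
    funext i
    ext1 s t
    simp only [line, lineK, Matrix.map_apply, Matrix.add_apply, Matrix.smul_apply,
      Matrix.sub_apply, g, smul_eq_mul, Polynomial.coe_mapAlgHom]
    have h1 : ∀ c : L, (e : P →+* L) (algebraMap L P c) = c := by
      intro c
      exact (MvPolynomial.aeval (R := L) (fun i => algebraMap K L (a i))).commutes c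
    have h2 : (e : P →+* L) (v i) = algebraMap K L (a i) :=
      MvPolynomial.aeval_X _ _
    by_cases hst : s = t
    · subst hst
      simp [Matrix.scalar_apply, h1, h2]
    · simp [Matrix.scalar_apply, hst, h1]
  rw [← key X, ← key Y, detJ_map]
  exact Polynomial.natDegree_map_le

theorem lineK_zero (X : Fin n → Matrix ι ι L) :
    lineK (0 : Fin n → K) X = fun i => (Polynomial.X : L[X]) • ((X i).map C) := by
  funext i
  ext1 s t
  simp [lineK, line, Matrix.scalar_apply]

theorem exists_ev_lineK (a : Fin n → K) (X : Fin n → Matrix ι ι L)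
    (g : Fin n → FreeAlgebra K (Fin n)) (hg : ∀ j, FreeAlgebra.lift K a (g j) = 0) :
    ∃ X' : Fin n → Matrix ι ι L[X], ev g (lineK a X) = fun i => (Polynomial.X : L[X]) • X' i := by
  have h0 : ∀ j, (ev g (lineK a X) j).map (Polynomial.aeval (0 : L)) = 0 := by
    intro j
    let e0 : L[X] →ₐ[K] L := (Polynomial.aeval (0 : L) : L[X] →ₐ[L] L).restrictScalars K
    have h1 : (ev g (lineK a X) j).map e0 =
        FreeAlgebra.lift K (fun i => (lineK a X i).map e0) (g j) := (lift_map e0 ι _ _).symm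
    have h2 : (fun i => (lineK a X i).map e0) =
        fun i => Matrix.scalar ι (algebraMap K L (a i)) := by
      funext i
      ext1 s t
      have h3 : ∀ p : L[X], e0 p = p.eval 0 := fun p => by
        change Polynomial.aeval (0 : L) p = _
        rw [Polynomial.aeval_def]; rfl
      by_cases hst : s = t
      · subst hst
        simp [lineK, line, Matrix.scalar_apply, h3]
      · simp [lineK, line, Matrix.scalar_apply, h3, hst]
    have h4 : (FreeAlgebra.lift K (fun i => Matrix.scalar ι (algebraMap K L (a i)))) =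
        (Algebra.ofId K (Matrix ι ι L)).comp (FreeAlgebra.lift K a) := by
      ext i s t
      by_cases hst : s = t
      · subst hst
        simp [Matrix.scalar_apply, Algebra.ofId_apply, Matrix.algebraMap_matrix_apply]
      · simp [Matrix.scalar_apply, Algebra.ofId_apply, Matrix.algebraMap_matrix_apply, hst]
    change (ev g (lineK a X) j).map e0 = 0
    rw [h1, h2, h4, AlgHom.comp_apply, hg, map_zero]
  refine ⟨fun j => (ev g (lineK a X) j).map Polynomial.divX, ?_⟩
  funext j
  ext1 s t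
  have h5 : ((ev g (lineK a X) j) s t).coeff 0 = 0 := by
    have := congrFun (congrFun (h0 j) s) t
    rw [Matrix.map_apply, Matrix.zero_apply, Polynomial.aeval_def] at this
    rw [Polynomial.coeff_zero_eq_eval_zero]
    exact this
  change (ev g (lineK a X) j) s t = Polynomial.X * Polynomial.divX ((ev g (lineK a X) j) s t)
  conv_lhs => rw [← Polynomial.X_mul_divX_add ((ev g (lineK a X) j) s t), h5, map_zero, add_zero]

theorem exists_factor (φ : FreeAlgebra K (Fin n) →ₐ[K] FreeAlgebra K (Fin n))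
    (h : IsGood φ ∨ IsGoodOp φ) (X Y : Fin n → Matrix ι ι L) (m : ℕ) :
    ∃ (a : Fin n → K) (u q : L[X]), IsUnit u ∧
      detJ (lineK a X) (lineK a Y) (fun j => φ (FreeAlgebra.ι K j)) =
        u * (1 + Polynomial.X ^ m * q) := by
  rcases h with h | h
  · obtain ⟨ψ, θ, hφ, hψ⟩ := h (m + 1) (Nat.le_add_left 1 m)
    have h1 : (fun j => φ (FreeAlgebra.ι K j)) = fun j =>
        FreeAlgebra.lift K (fun i => ψ (FreeAlgebra.ι K i)) (θ (FreeAlgebra.ι K j)) := by
      funext j
      rw [hφ, ← algHom_eq_lift ψ]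
      rfl
    obtain ⟨q, hq⟩ := exists_detJ_eq (Λ := L[X]) (Polynomial.X : L[X])
      (fun i => (X i).map C) (fun i => (Y i).map C) m ψ hψ
    refine ⟨0, _, q, isUnit_detJ_of_aut θ
      (ev (fun i => ψ (FreeAlgebra.ι K i)) (lineK (0 : Fin n → K) X))
      (ev (fun i => ψ (FreeAlgebra.ι K i)) (lineK (0 : Fin n → K) Y)), ?_⟩
    rw [h1, detJ_comp, lineK_zero, lineK_zero, hq]
  · obtain ⟨ψ, θ, hφ, hψ⟩ := h (m + 1) (Nat.le_add_left 1 m)
    have h1 : (fun j => φ (FreeAlgebra.ι K j)) = fun j =>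
        FreeAlgebra.lift K (fun i => θ (FreeAlgebra.ι K i)) (ψ (FreeAlgebra.ι K j)) := by
      funext j
      have := algHom_eq_lift (θ : FreeAlgebra K (Fin n) →ₐ[K] FreeAlgebra K (Fin n))
      have h3 : FreeAlgebra.lift K (fun j => θ (FreeAlgebra.ι K j)) =
        (θ : FreeAlgebra K (Fin n) →ₐ[K] FreeAlgebra K (Fin n)) := this.symm
      rw [hφ, h3]
      rfl
    let a : Fin n → K := fun i => FreeAlgebra.algebraMapInv (θ.symm (FreeAlgebra.ι K i))
    have ha : ∀ j, FreeAlgebra.lift K a (θ (FreeAlgebra.ι K j)) = 0 := by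
      intro j
      have h4 : FreeAlgebra.lift K a = (FreeAlgebra.algebraMapInv).comp
          (θ.symm : FreeAlgebra K (Fin n) →ₐ[K] FreeAlgebra K (Fin n)) := by
        ext i
        simp [a]
      rw [h4]
      simp [FreeAlgebra.algebraMapInv]
    obtain ⟨X', hX'⟩ := exists_ev_lineK a X _ ha
    obtain ⟨Y', hY'⟩ := exists_ev_lineK a Y _ ha
    obtain ⟨q, hq⟩ := exists_detJ_eq (Λ := L[X]) (Polynomial.X : L[X]) X' Y' m ψ hψ
    refine ⟨a, _, q, isUnit_detJ_of_aut θ (lineK a X) (lineK a Y), ?_⟩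
    rw [h1, detJ_comp, hX', hY', hq, mul_comm]

theorem detJ_ne_zero (φ : FreeAlgebra K (Fin n) →ₐ[K] FreeAlgebra K (Fin n))
    (h : IsGood φ ∨ IsGoodOp φ) (X Y : Fin n → Matrix ι ι L) :
    detJ X Y (fun j => φ (FreeAlgebra.ι K j)) ≠ 0 := by
  obtain ⟨B, hB⟩ := exists_bound (K := K) X Y (fun j => φ (FreeAlgebra.ι K j))
  obtain ⟨a, u, q, hu, hp⟩ := exists_factor φ h X Y (B + 1)
  obtain ⟨c, hc, rfl⟩ := Polynomial.isUnit_iff.mp hu
  have hdeg := hB a
  set p := detJ (lineK a X) (lineK a Y) (fun j => φ (FreeAlgebra.ι K j)) with hpdef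
  have h1 : p - C c = 0 := by
    by_contra hne
    have h2 : p - C c = Polynomial.X ^ (B + 1) * (C c * q) := by rw [hp]; ring
    have h3 : (p - C c).natDegree ≤ B := by
      refine (Polynomial.natDegree_sub_le _ _).trans ?_
      simp [hdeg]
    have h4 : C c * q ≠ 0 := by
      intro h0
      rw [h2, h0, mul_zero] at hne
      exact hne rfl
    rw [h2, Polynomial.natDegree_mul (pow_ne_zero _ Polynomial.X_ne_zero) h4,
      Polynomial.natDegree_X_pow] at h3
    omega
  have h5 : p = C c := sub_eq_zero.mp h1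
  let e1 : L[X] →ₐ[K] L := (Polynomial.aeval (1 : L) : L[X] →ₐ[L] L).restrictScalars K
  have h6 : ∀ p : L[X], e1 p = p.eval 1 := fun p => by
    change Polynomial.aeval (1 : L) p = _
    rw [Polynomial.aeval_def]; rfl
  have h7 : ∀ Z : Fin n → Matrix ι ι L, (fun i => (lineK a Z i).map e1) = Z := by
    intro Z
    funext i
    ext1 s t
    by_cases hst : s = t
    · subst hst
      simp [lineK, line, Matrix.scalar_apply, h6]
    · simp [lineK, line, Matrix.scalar_apply, h6, hst]
  have h8 := detJ_map e1 (lineK a X) (lineK a Y) (fun j => φ (FreeAlgebra.ι K j))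
  rw [h7, h7, ← hpdef, h5, h6, Polynomial.eval_C] at h8
  rw [h8]
  exact hc.ne_zero

theorem injMat_of_good (φ : FreeAlgebra K (Fin n) →ₐ[K] FreeAlgebra K (Fin n))
    (h : IsGood φ ∨ IsGoodOp φ) : InjMat (fun j => φ (FreeAlgebra.ι K j)) := by
  intro L _ _ ι _ _ X Y hXY
  have hdet := detJ_ne_zero φ h X Y
  have hker : Jac X Y (fun j => φ (FreeAlgebra.ι K j)) (fun i => X i - Y i) = 0 := by
    funext j
    rw [Jac_apply, dd_sub]
    simp [hXY j]
  have hinj : Function.Injective (Jac X Y (fun j => φ (FreeAlgebra.ι K j))) :=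
    (LinearMap.equivOfDetNeZero _ hdet).injective
  have h0 : (fun i => X i - Y i) = 0 := by
    apply hinj
    rw [hker, map_zero]
  funext i
  exact sub_eq_zero.mp (congrFun h0 i)

end Main

end Pool.Agent.GE
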