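import Mathlib
import Pool.Agent.GE.Inj
import Pool.Agent.GE.Surj

/-!
Matrix points separate the elements of a free algebra; a surjective endomorphism which is
surjective on matrix points is injective.
-/

namespace Pool.Agent.GE

universe u v

variable {K : Type u} [Field K] {n : ℕ}

theorem basis_eq_mon (w : List (Fin n)) :
    FreeAlgebra.basisFreeMonoid K (Fin n) (FreeMonoid.ofList w) = mon K w := by
  rw [FreeAlgebra.basisFreeMonoid, Module.Basis.map_apply, Finsupp.coe_basisSingleOne]
  change FreeAlgebra.equivMonoidAlgebraFreeMonoid.symm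
    (MonoidAlgebra.single (FreeMonoid.ofList w) 1) = _
  change (MonoidAlgebra.lift K (FreeAlgebra K (Fin n)) (FreeMonoid (Fin n)))
    (FreeMonoid.lift (FreeAlgebra.ι K)) (MonoidAlgebra.single (FreeMonoid.ofList w) 1) = _
  rw [MonoidAlgebra.lift_single, one_smul, FreeMonoid.lift_apply]
  rfl

/-- Truncated regular representation. -/
def regMat (K : Type u) [Field K] (n d : ℕ) (i : Fin n) :
    Matrix {l : List (Fin n) // l.length ≤ d} {l : List (Fin n) // l.length ≤ d} K :=
  fun s t => if s.1 = i :: t.1 then 1 else 0

noncomputable instance fintypeWords (n d : ℕ) : Fintype {l : List (Fin n) // l.length ≤ d} :=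
  (List.finite_length_le (Fin n) d).fintype

theorem lift_regMat_mon (d : ℕ) (w : List (Fin n))
    (s t : {l : List (Fin n) // l.length ≤ d}) :
    (FreeAlgebra.lift K (regMat K n d) (mon K w)) s t = if s.1 = w ++ t.1 then 1 else 0 := by
  induction w generalizing s t with
  | nil =>
    rw [mon_nil, map_one, Matrix.one_apply]
    simp [Subtype.ext_iff]
  | cons i w ih =>
    rw [mon_cons, map_mul, Matrix.mul_apply]
    simp only [FreeAlgebra.lift_ι_apply, ih]
    by_cases h : s.1 = i :: w ++ t.1
    · have hl : (w ++ t.1).length ≤ d := by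
        have := s.2
        rw [h] at this
        simp only [List.cons_append, List.length_cons, List.length_append] at this ⊢
        omega
      rw [if_pos h, Finset.sum_eq_single ⟨w ++ t.1, hl⟩]
      · simp [regMat, h]
      · intro b _ hb
        have : b.1 ≠ w ++ t.1 := fun hh => hb (Subtype.ext hh)
        simp [this]
      · intro h'
        exact absurd (Finset.mem_univ _) h'
    · rw [if_neg h]
      apply Finset.sum_eq_zero
      intro b _
      by_cases hb : b.1 = w ++ t.1
      · have : ¬ (s.1 = i :: b.1) := by
          rw [hb]; exact h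
        simp [regMat, this]
      · simp [hb]

/-- Matrix points separate: an element vanishing on all matrices over a field extension is `0`. -/
theorem eq_zero_of_vanish (L : Type u) [Field L] [Algebra K L] (a : FreeAlgebra K (Fin n))
    (h : ∀ (ι : Type) [Fintype ι] [DecidableEq ι] (X : Fin n → Matrix ι ι L),
      FreeAlgebra.lift K X a = 0) : a = 0 := by
  classical
  apply (FreeAlgebra.basisFreeMonoid K (Fin n)).ext_elem
  intro u
  rw [map_zero, Finsupp.zero_apply]
  set d := u.toList.length with hd
  let s : {l : List (Fin n) // l.length ≤ d} := ⟨u.toList, le_rfl⟩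
  let t : {l : List (Fin n) // l.length ≤ d} := ⟨[], Nat.zero_le _⟩
  let ℓ1 : FreeAlgebra K (Fin n) →ₗ[K] K :=
    { toFun := fun a => (FreeAlgebra.lift K (regMat K n d) a) s t
      map_add' := fun a b => by rw [map_add, Matrix.add_apply]
      map_smul' := fun c a => by rw [map_smul, Matrix.smul_apply]; rfl }
  have hℓ : ℓ1 = (FreeAlgebra.basisFreeMonoid K (Fin n)).coord u := by
    apply (FreeAlgebra.basisFreeMonoid K (Fin n)).ext
    intro w
    rw [Module.Basis.coord_apply, Module.Basis.repr_self, Finsupp.single_apply]
    have : FreeAlgebra.basisFreeMonoid K (Fin n) w = mon K w.toList := by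
      rw [← basis_eq_mon]; rfl
    rw [this]
    change (FreeAlgebra.lift K (regMat K n d) (mon K w.toList)) s t = _
    rw [lift_regMat_mon]
    simp only [s, t, List.append_nil]
    by_cases hw : w = u
    · subst hw; simp
    · have h2 : ¬ (u.toList = w.toList) := fun hh => hw (FreeMonoid.toList.injective hh.symm)
      simp [hw, h2]
  have h1 : (FreeAlgebra.basisFreeMonoid K (Fin n)).repr a u = ℓ1 a := by
    rw [hℓ]; rfl
  rw [h1]
  have h2 := h {l : List (Fin n) // l.length ≤ d}
    (fun i => (regMat K n d i).map (algebraMap K L))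
  have h3 := lift_map (K := K) (Algebra.ofId K L) {l : List (Fin n) // l.length ≤ d}
    (regMat K n d) a
  change FreeAlgebra.lift K (fun i => (regMat K n d i).map (algebraMap K L)) a =
    (FreeAlgebra.lift K (regMat K n d) a).map (algebraMap K L) at h3
  rw [h2] at h3
  have h4 := congrFun (congrFun h3 s) t
  rw [Matrix.map_apply, Matrix.zero_apply] at h4
  exact (FaithfulSMul.algebraMap_injective K L) (by rw [map_zero]; exact h4.symm)

/-- An endomorphism which is injective on matrix points is injective. -/
theorem injective_of_injMat (φ : FreeAlgebra K (Fin n) →ₐ[K] FreeAlgebra K (Fin n))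
    (h : InjMat (fun j => φ (FreeAlgebra.ι K j))) : Function.Injective φ := by
  rw [injective_iff_map_eq_zero]
  intro a ha
  apply eq_zero_of_vanish (AlgebraicClosure K)
  intro ι _ _ G
  obtain ⟨X, hX⟩ := surj_of_injOn (AlgebraicClosure K) ι (h (AlgebraicClosure K) ι) G
  have h1 : FreeAlgebra.lift K G = (FreeAlgebra.lift K X).comp φ := by
    ext j
    simp [hX j]
  rw [h1, AlgHom.comp_apply, ha, map_zero]

end Pool.Agent.GE
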