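import Pool.Agent.GE.Core

/-!
Step A: stabilisation of the chain of truncated solution spaces forces vanishing at `[]`.
-/

namespace Pool.Agent.GE

universe u

variable {n : ℕ}

/-- words of length at most `D` -/
abbrev Short (n D : ℕ) := {w : List (Fin n) // w.length ≤ D}

instance (n D : ℕ) : Finite (Short n D) := (List.finite_length_le (Fin n) D).to_subtype

section

variable {K : Type*} {F V : Type u} [Field K] [Field F] [AddCommGroup V] [Module K V] [Module F V]
  [SMulCommClass K F V] (c : Fin n → (List (Fin n) →₀ K)) (X : Fin n → V →ₗ[F] V)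

/-- functions `γ` with `(J γ)_k (a) = 0` for all `|a| ≤ s`. -/
def Sol (s : ℕ) : Submodule F (Fin n → List (Fin n) → V) where
  carrier := {γ | ∀ k a, a.length ≤ s → J c (fun i => (X i : V → V)) γ k a = 0}
  add_mem' := by
    intro γ γ' h h' k a ha
    have := J_add c X γ γ' k a
    rw [h k a ha, h' k a ha, add_zero] at this
    exact this
  zero_mem' := by
    intro k a _
    exact J_zero c X k a
  smul_mem' := by
    intro r γ h k a ha
    have := J_smul c X r γ k a
    rw [h k a ha, smul_zero] at this
    exact this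

lemma mem_Sol {s : ℕ} {γ : Fin n → List (Fin n) → V} :
    γ ∈ Sol c X s ↔ ∀ k a, a.length ≤ s → J c (fun i => (X i : V → V)) γ k a = 0 := Iff.rfl

variable (F V) in
/-- restriction to short words -/
def res (D : ℕ) : (Fin n → List (Fin n) → V) →ₗ[F] (Fin n → Short n D → V) where
  toFun γ := fun i v => γ i v.1
  map_add' _ _ := rfl
  map_smul' _ _ := rfl

variable (F V) in
/-- right shift by a letter -/
def shift (j : Fin n) : (Fin n → List (Fin n) → V) →ₗ[F] (Fin n → List (Fin n) → V) where
  toFun γ := fun i v => γ i (v ++ [j])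
  map_add' _ _ := rfl
  map_smul' _ _ := rfl

/-- restrictions of the solutions up to level `s` -/
def Rs (D s : ℕ) : Submodule F (Fin n → Short n D → V) := (Sol c X s).map (res F V D)

lemma Sol_anti {s t : ℕ} (h : s ≤ t) : Sol c X t ≤ Sol c X s :=
  fun _ hγ k a ha => hγ k a (ha.trans h)

lemma Rs_anti (D : ℕ) {s t : ℕ} (h : s ≤ t) : Rs c X D t ≤ Rs c X D s :=
  Submodule.map_mono (Sol_anti c X h)

lemma shift_mem (j : Fin n) {s : ℕ} {γ : Fin n → List (Fin n) → V} (h : γ ∈ Sol c X (s + 1)) :
    shift F V j γ ∈ Sol c X s := by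
  intro k a ha
  have := J_shift c (fun i => (X i : V → V)) γ j k a
  rw [h k (a ++ [j]) (by simp; omega)] at this
  exact this

theorem stepA [FiniteDimensional F V] {D : ℕ} (hD : ∀ k, ∀ w ∈ (c k).support, w.length ≤ D + 1)
    (hH : ∀ (M : Type u) [AddCommGroup M] [Module F M] [FiniteDimensional F M]
      (Z : Fin n → Module.End F M) (π : Fin n → M →ₗ[F] V),
      (∀ k m, ((c k).sum fun w r => r • E (fun i => (X i : V → V))
        (fun i v => π i ((v.map Z).prod m)) w) = 0) → ∀ i, π i = 0)
    {s : ℕ} (hs : Rs c X D s = Rs c X D (s + 1)) :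
    ∀ γ ∈ Sol c X s, ∀ i, γ i [] = 0 := by
  classical
  -- the surjection `Sol (s+1) → Rs s`
  let r : Sol c X (s + 1) →ₗ[F] Rs c X D s :=
    LinearMap.codRestrict _ ((res F V D).comp (Sol c X (s + 1)).subtype) (by
      intro γ
      rw [hs]
      exact Submodule.mem_map_of_mem γ.2)
  have hr : LinearMap.range r = ⊤ := by
    rw [LinearMap.range_eq_top]
    rintro ⟨γ, hγ⟩
    rw [hs] at hγ
    obtain ⟨γ', hγ', rfl⟩ := hγ
    exact ⟨⟨γ', hγ'⟩, rfl⟩
  obtain ⟨sec, hsec⟩ := r.exists_rightInverse_of_surjective hr
  have hsec' : ∀ γ : Rs c X D s, res F V D (sec γ).1 = γ.1 := by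
    intro γ
    have := congrArg (fun f => (f γ).1) hsec
    exact this
  let Z : Fin n → Module.End F (Rs c X D s) := fun j =>
    LinearMap.codRestrict _
      ((res F V D).comp ((shift F V j).comp ((Sol c X (s + 1)).subtype.comp sec))) (by
        intro γ
        exact Submodule.mem_map_of_mem (shift_mem c X j (sec γ).2))
  let π : Fin n → Rs c X D s →ₗ[F] V := fun i =>
    ((LinearMap.proj (⟨[], by simp⟩ : Short n D)).comp (LinearMap.proj i)).comp
      (Rs c X D s).subtype
  have hπ : ∀ i (γ : Rs c X D s), π i γ = γ.1 i ⟨[], by simp⟩ := fun i γ => rfl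
  have key : ∀ (v : List (Fin n)) (hv : v.length ≤ D) (i : Fin n) (γ : Rs c X D s),
      γ.1 i ⟨v, hv⟩ = π i ((v.map Z).prod γ) := by
    intro v
    induction v using List.reverseRecOn with
    | nil => intro hv i γ; simp [hπ]
    | append_singleton v j ih =>
      intro hv i γ
      have hv' : v.length ≤ D := by simp at hv; omega
      rw [List.map_append, List.prod_append]
      simp only [List.map_cons, List.map_nil, List.prod_cons, List.prod_nil, mul_one]
      rw [Module.End.mul_apply, ← ih hv' i (Z j γ)]
      have := congrFun (congrFun (hsec' γ) i) ⟨v ++ [j], hv⟩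
      rw [← this]
      rfl
  have hπ0 : ∀ i, π i = 0 := by
    apply hH (Rs c X D s) Z π
    intro k γ
    have h0 : J c (fun i => (X i : V → V)) (sec γ).1 k [] = 0 := (sec γ).2 k [] (by simp)
    rw [← h0]
    unfold J
    apply Finsupp.sum_congr
    intro w hw
    congr 1
    apply E_congr
    intro i v hv
    have hw' := hD k w hw
    have hv' : v.length ≤ D := by omega
    rw [← key v hv' i γ, List.append_nil]
    exact (congrFun (congrFun (hsec' γ) i) ⟨v, hv'⟩).symm
  intro γ hγ i
  have : π i ⟨res F V D γ, Submodule.mem_map_of_mem hγ⟩ = 0 := by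
    rw [hπ0 i]; rfl
  exact this

/-- If all dimensions of the chain are divisible by `N` then the chain must be stationary
somewhere below `b`, where `dim ≤ N * b`. -/
theorem exists_stable [FiniteDimensional F V] {D N b : ℕ} (hN : 0 < N)
    (hdiv : ∀ s, N ∣ Module.finrank F (Rs c X D s))
    (hb : Module.finrank F (Fin n → Short n D → V) ≤ N * b) :
    ∃ s ≤ b, Rs c X D s = Rs c X D (s + 1) := by
  by_contra hcon
  push Not at hcon
  have key : ∀ s ≤ b + 1, Module.finrank F (Rs c X D s) + N * s ≤ N * b := by
    intro s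
    induction s with
    | zero => intro _; simpa using (Submodule.finrank_le _).trans hb
    | succ s ih =>
      intro hs
      have h1 := ih (by omega)
      have hlt : Rs c X D (s + 1) < Rs c X D s :=
        lt_of_le_of_ne (Rs_anti c X D (Nat.le_succ s)) (fun h => hcon s (by omega) h.symm)
      have h2 := Submodule.finrank_lt_finrank_of_lt hlt
      obtain ⟨p, hp⟩ := hdiv s
      obtain ⟨q, hq⟩ := hdiv (s + 1)
      rw [hp, hq] at h2
      rw [hp] at h1
      rw [hq]
      have h3 : q < p := lt_of_mul_lt_mul_left h2 (Nat.zero_le N)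
      have h4 : N * (q + 1) ≤ N * p := Nat.mul_le_mul_left N h3
      nlinarith
  have := key (b + 1) le_rfl
  have h5 : N * (b + 1) ≤ N * b := by omega
  have := Nat.le_of_mul_le_mul_left h5 hN
  omega

end

end Pool.Agent.GE
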