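import Pool.Agent.GE.Hyp
import Pool.Agent.GE.StepA
import Pool.Agent.GE.Div
import Pool.Agent.GE.Generic

/-!
Proof of the uniform claim.
-/

namespace Pool.Agent.GE

open MvPolynomial

universe u

variable {n : ℕ}

theorem dvd_finrank_submodule {F : Type*} [Field F] (σ : F →+* F) (τ : F) (N : ℕ)
    (hnorm : ∀ (θ : F) (d : ℕ), (∏ i ∈ Finset.range N, σ^[i] θ) = τ ^ d → N ∣ d)
    {T : Type*} [AddCommGroup T] [Module F T] (U : T →+ T)
    (hU : ∀ (r : F) (w : T), U (r • w) = σ r • U w) (hUN : ∀ w, U^[N] w = τ • w)
    (W : Submodule F T) [FiniteDimensional F W] (hW : ∀ w ∈ W, U w ∈ W) :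
    N ∣ Module.finrank F W := by
  let UW : W →+ W :=
    { toFun := fun w => ⟨U w.1, hW w.1 w.2⟩
      map_zero' := by ext; simp
      map_add' := fun v w => by ext; simp }
  have h1 : ∀ w : W, (UW w : T) = U w := fun w => rfl
  have h2 : ∀ (i : ℕ) (w : W), ((UW^[i] w : W) : T) = U^[i] w := by
    intro i
    induction i with
    | zero => intro w; rfl
    | succ i ih => intro w; rw [Function.iterate_succ_apply', Function.iterate_succ_apply', h1, ih]
  apply dvd_finrank_of_semilinear σ τ N hnorm UW
  · intro r w
    apply Subtype.ext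
    rw [h1]
    exact hU r w
  · intro w
    apply Subtype.ext
    rw [h2]
    exact hUN w

section

variable {K k : Type u} [Field K] [Field k] [Algebra K k]

/-- pointwise application of `Usem` -/
noncomputable def Uhat (k : Type u) [Field k] (n N D : ℕ) :
    (Fin n → Short n D → (Fin (N + 1) → FR k n N)) →+
      (Fin n → Short n D → (Fin (N + 1) → FR k n N)) where
  toFun γ := fun i v => Usem k n N (γ i v)
  map_zero' := by funext i v; simp
  map_add' γ γ' := by funext i v; simp

/-- the generic matrices as operators over the fraction field -/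
noncomputable abbrev XF (k : Type u) [Field k] (n N : ℕ) (i : Fin n) :
    (Fin (N + 1) → FR k n N) →ₗ[FR k n N] (Fin (N + 1) → FR k n N) :=
  ((XG k n N i).map (algebraMap (CR k n N) (FR k n N))).mulVecLin

lemma dvd_finrank_Rs (c : Fin n → (List (Fin n) →₀ K)) (D N s : ℕ) :
    (N + 1) ∣ Module.finrank (FR k n N) (Rs c (XF k n N) D s) := by
  apply dvd_finrank_submodule (sigF k n N) (tau k n N) (N + 1) (norm_dvd k n N) (Uhat k n N D)
  · intro r γ
    funext i v
    exact Usem_smul k n N r (γ i v)
  · intro γ
    have h : ∀ (m : ℕ) (i : Fin n) (v : Short n D),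
        (Uhat k n N D)^[m] γ i v = (Usem k n N)^[m] (γ i v) := by
      intro m
      induction m with
      | zero => intro i v; rfl
      | succ m ih =>
        intro i v
        rw [Function.iterate_succ_apply', Function.iterate_succ_apply', ← ih]
        rfl
    funext i v
    rw [h, Usem_iter_N]
    rfl
  · rintro _ ⟨γ, hγ, rfl⟩
    refine ⟨fun i v => Usem k n N (γ i v), ?_, rfl⟩
    intro j a ha
    have h1 := map_J c (fun i => (XF k n N i : _ → _)) (fun i => (XF k n N i : _ → _))
      (Usem k n N) (fun i v => Usem_comm k n N i v) (fun r v => by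
        have h2 : r • v = (algebraMap K (FR k n N) r) • v := by
          rw [algebraMap_smul]
        have h3 : sigF k n N (algebraMap K (FR k n N) r) = algebraMap K (FR k n N) r := by
          rw [IsScalarTower.algebraMap_apply K (CR k n N) (FR k n N), sigF_algebraMap,
            MvPolynomial.algebraMap_apply, sigC_C]
        rw [h2, Usem_smul, h3, algebraMap_smul]) γ j a
    rw [hγ j a ha, map_zero] at h1
    exact h1.symm

/-- the level of the uniform claim -/
noncomputable def lev (n D : ℕ) : ℕ := n * Nat.card (Short n D)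

lemma finrank_space (D N : ℕ) : Module.finrank (FR k n N)
    (Fin n → Short n D → (Fin (N + 1) → FR k n N)) ≤ (N + 1) * lev n D := by
  classical
  have := Fintype.ofFinite (Short n D)
  rw [Module.finrank_pi_fintype, Finset.sum_const, Module.finrank_pi_fintype, Finset.sum_const]
  simp [lev, Nat.card_eq_fintype_card]
  apply le_of_eq
  ring

theorem generic_vanish {f : Fin n → FreeAlgebra K (Fin n)} (h : InjMat f)
    (c : Fin n → (List (Fin n) →₀ K)) (hc : ∀ j, f j = (c j).sum fun w r => r • wd K w)
    {D : ℕ} (hD : ∀ k, ∀ w ∈ (c k).support, w.length ≤ D + 1) (N : ℕ)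
    (γ : Fin n → List (Fin n) → (Fin (N + 1) → CR k n N))
    (hγ : ∀ j a, a.length ≤ lev n D →
      J c (fun i => ((XG k n N i).mulVecLin : (Fin (N + 1) → CR k n N) → _)) γ j a = 0)
    (i : Fin n) : γ i [] = 0 := by
  obtain ⟨s, hs, hst⟩ := exists_stable c (XF k n N) (D := D) (Nat.succ_pos N)
    (dvd_finrank_Rs c D N) (finrank_space D N)
  have hA := stepA c (XF k n N) hD (fun M _ _ _ Z π => h.block c hc (XF k n N) M Z π) hst
  let sp : CR k n N →ₐ[K] FR k n N := IsScalarTower.toAlgHom K (CR k n N) (FR k n N)
  have hU : ∀ (i : Fin n) (v : Fin (N + 1) → CR k n N),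
      mapVec sp ((XG k n N i).mulVecLin v) = XF k n N i (mapVec sp v) := by
    intro i v
    exact mapVec_mulVec sp (XG k n N i) v
  have h1 : (fun i v => mapVec sp (γ i v)) ∈ Sol c (XF k n N) s := by
    intro j a ha
    rw [← map_J c (fun i => ((XG k n N i).mulVecLin : (Fin (N + 1) → CR k n N) → _))
      (fun i => (XF k n N i : _ → _)) (mapVec sp) hU (mapVec_smul sp), hγ j a (ha.trans hs),
      map_zero]
  have h2 := hA _ h1 i
  funext l
  have h3 := congrFun h2 l
  exact (IsFractionRing.injective (CR k n N) (FR k n N)) (by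
    rw [Pi.zero_apply, map_zero]
    exact h3)

/-- a polynomial without zeros over an algebraically closed field is a unit -/
lemma isUnit_of_no_zero [IsAlgClosed k] {ι : Type*} [Finite ι] (p : MvPolynomial ι k)
    (hp : ∀ x : ι → k, MvPolynomial.aeval x p ≠ 0) : IsUnit p := by
  by_contra hcon
  obtain ⟨I, hI, hpI⟩ := exists_max_ideal_of_mem_nonunits (mem_nonunits_iff.mpr hcon)
  obtain ⟨x, hx⟩ := MvPolynomial.isMaximal_iff_eq_vanishingIdeal_singleton.mp hI
  rw [hx, MvPolynomial.mem_vanishingIdeal_singleton_iff] at hpI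
  exact hp x hpI

end

end Pool.Agent.GE
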